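import Pool.Agent.Lib.MP_0e6cae_nt.KF.Inv
import Pool.Agent.Lib.MP_0e6cae_nt.SW.Proj

/-!
Dihedral groups: a group `N` with an injective homomorphism `f : C → N` from a cyclic group `C`
with generator `x` and an element `s` of order two outside the image with `s f(c) s = f(c)⁻¹`.
-/

open CategoryTheory Polynomial

namespace Pool.Agent.Lib.MP_0e6cae_nt.DH

/-- `N` is a dihedral group with rotation subgroup `f(C)`, `x` a generator of `C`, and reflection
`s`. -/
structure Dih {C N : Type} [CommGroup C] [Group N] (f : C →* N) (x : C) (s : N) : Prop where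
  inj : Function.Injective f
  gen : ∀ y : C, y ∈ Subgroup.zpowers x
  sq : s * s = 1
  conj : ∀ c : C, s * f c = f c⁻¹ * s
  notin : ∀ c : C, f c ≠ s
  all : ∀ g : N, ∃ c : C, g = f c ∨ g = f c * s

/-- The element `g` of the group ring. -/
noncomputable abbrev el {N : Type} [Group N] (g : N) : MonoidAlgebra ℤ N :=
  MonoidAlgebra.single g (1 : ℤ)

/-- The ring homomorphism `ℤ[C] → ℤ[N]`. -/
noncomputable abbrev io {C N : Type} [Group C] [Group N] (f : C →* N) :
    MonoidAlgebra ℤ C →+* MonoidAlgebra ℤ N := MonoidAlgebra.mapDomainRingHom ℤ f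

theorem el_mul {N : Type} [Group N] (g h : N) : el g * el h = el (g * h) := by
  simp [el, MonoidAlgebra.single_mul_single]

theorem el_one {N : Type} [Group N] : el (1 : N) = 1 := rfl

theorem io_single {C N : Type} [Group C] [Group N] (f : C →* N) (c : C) (n : ℤ) :
    io f (MonoidAlgebra.single c n) = MonoidAlgebra.single (f c) n := by
  simp [io]

variable {C N : Type} [CommGroup C] [Group N] {f : C →* N} {x : C} {s : N}

theorem Dih.card [Finite C] [Finite N] (D : Dih f x s) : Nat.card N = 2 * Nat.card C := by
  let e : C ⊕ C → N := Sum.elim (fun c => f c) (fun c => f c * s)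
  have he : Function.Bijective e := by
    constructor
    · rintro (a | a) (b | b) h
      · exact congrArg Sum.inl (D.inj h)
      · refine absurd ?_ (D.notin (b⁻¹ * a))
        have h1 : f a = f b * s := h
        rw [map_mul, map_inv, h1, inv_mul_cancel_left]
      · refine absurd ?_ (D.notin (a⁻¹ * b))
        have h1 : f a * s = f b := h
        rw [map_mul, map_inv, ← h1, inv_mul_cancel_left]
      · exact congrArg Sum.inr (D.inj (mul_right_cancel (b := s) h))
    · intro g
      obtain ⟨c, h | h⟩ := D.all g
      · exact ⟨Sum.inl c, h.symm⟩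
      · exact ⟨Sum.inr c, h.symm⟩
  rw [← Nat.card_congr (Equiv.ofBijective e he), Nat.card_sum, two_mul]

/-- The reflection with `x s` in the place of `s`. -/
theorem Dih.shift (D : Dih f x s) : Dih f x (f x * s) := by
  refine ⟨D.inj, D.gen, ?_, ?_, ?_, ?_⟩
  · rw [mul_assoc, ← mul_assoc s, D.conj, mul_assoc, D.sq, mul_one, ← map_mul, mul_inv_cancel,
      map_one]
  · intro c
    rw [mul_assoc, D.conj, ← mul_assoc, ← mul_assoc, ← map_mul, ← map_mul, mul_comm]
  · intro c h
    refine D.notin (x⁻¹ * c) ?_
    rw [map_mul, map_inv, h, inv_mul_cancel_left]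
  · intro g
    obtain ⟨c, h | h⟩ := D.all g
    · exact ⟨c, Or.inl h⟩
    · refine ⟨c * x⁻¹, Or.inr ?_⟩
      rw [h, ← mul_assoc, ← map_mul, inv_mul_cancel_right]

theorem io_aeval (f : C →* N) (x : C) (A : ℤ[X]) : io f (aeval (el x) A) = aeval (el (f x)) A := by
  have h1 := aeval_algHom_apply (io f).toIntAlgHom (el x) A
  have h2 : (io f).toIntAlgHom (el x) = el (f x) := io_single f x 1
  rw [h2] at h1
  exact h1.symm

theorem Dih.s_mul_el (D : Dih f x s) (c : C) : el s * el (f c) = el (f c⁻¹) * el s := by
  rw [el_mul, el_mul, D.conj]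

theorem Dih.s_mul_io (D : Dih f x s) (A : ℤ[X]) :
    el s * aeval (el (f x)) A = aeval (el (f x⁻¹)) A * el s := by
  induction A using Polynomial.induction_on' with
  | add P Q hP hQ => rw [map_add, map_add, mul_add, add_mul, hP, hQ]
  | monomial m c =>
    rw [aeval_monomial, aeval_monomial]
    have h1 : ∀ m : ℕ, el s * el (f x) ^ m = el (f x⁻¹) ^ m * el s := by
      intro m
      induction m with
      | zero => rw [pow_zero, pow_zero, mul_one, one_mul]
      | succ m ih => rw [pow_succ, pow_succ, ← mul_assoc, ih, mul_assoc, D.s_mul_el, mul_assoc]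
    rw [← Algebra.smul_def, ← Algebra.smul_def, mul_smul_comm, smul_mul_assoc, h1]

/-- `ℤ[N] = ℤ[C] ⊕ ℤ[C] s`. -/
theorem Dih.exists_pair (D : Dih f x s) (r : MonoidAlgebra ℤ N) :
    ∃ a b : MonoidAlgebra ℤ C, r = io f a + io f b * el s := by
  induction r using MonoidAlgebra.induction_linear with
  | zero => exact ⟨0, 0, by rw [map_zero, zero_mul, add_zero]⟩
  | add r t hr ht =>
    obtain ⟨a, b, rfl⟩ := hr
    obtain ⟨a', b', rfl⟩ := ht
    refine ⟨a + a', b + b', ?_⟩
    rw [map_add, map_add, add_mul]
    abel
  | single g n =>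
    obtain ⟨c, rfl | rfl⟩ := D.all g
    · exact ⟨MonoidAlgebra.single c n, 0, by rw [io_single, map_zero, zero_mul, add_zero]⟩
    · refine ⟨0, MonoidAlgebra.single c n, ?_⟩
      rw [map_zero, zero_add, io_single, el, MonoidAlgebra.single_mul_single, mul_one]

theorem Dih.pair_inj (D : Dih f x s) (a b : MonoidAlgebra ℤ C) (h : io f a + io f b * el s = 0) :
    a = 0 ∧ b = 0 := by
  have h1 : ∀ (r : MonoidAlgebra ℤ C) (c : C), (io f r).coeff (f c) = r.coeff c := by
    intro r c
    induction r using MonoidAlgebra.induction_linear with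
    | zero => simp
    | add r t hr ht => rw [map_add, MonoidAlgebra.coeff_add, MonoidAlgebra.coeff_add,
        Finsupp.add_apply, Finsupp.add_apply, hr, ht]
    | single g n =>
      classical
      rw [io_single, MonoidAlgebra.coeff_single, MonoidAlgebra.coeff_single, Finsupp.single_apply,
        Finsupp.single_apply, D.inj.eq_iff]
  have h2 : ∀ (r : MonoidAlgebra ℤ C) (c : C), (io f r * el s).coeff (f c) = 0 := by
    intro r c
    induction r using MonoidAlgebra.induction_linear with
    | zero => simp
    | add r t hr ht => rw [map_add, add_mul, MonoidAlgebra.coeff_add,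
        Finsupp.add_apply, hr, ht, add_zero]
    | single g n =>
      classical
      rw [io_single, el, MonoidAlgebra.single_mul_single, MonoidAlgebra.coeff_single,
        Finsupp.single_apply, if_neg]
      intro h3
      refine D.notin (g⁻¹ * c) ?_
      rw [map_mul, map_inv, ← h3, inv_mul_cancel_left]
  have h3 : ∀ (r : MonoidAlgebra ℤ C) (c : C), (io f r * el s).coeff (f c * s) = r.coeff c := by
    intro r c
    induction r using MonoidAlgebra.induction_linear with
    | zero => simp
    | add r t hr ht => rw [map_add, add_mul, MonoidAlgebra.coeff_add, MonoidAlgebra.coeff_add,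
        Finsupp.add_apply, Finsupp.add_apply, hr, ht]
    | single g n =>
      classical
      rw [io_single, el, MonoidAlgebra.single_mul_single, mul_one, MonoidAlgebra.coeff_single,
        MonoidAlgebra.coeff_single, Finsupp.single_apply, Finsupp.single_apply]
      simp only [mul_left_inj, D.inj.eq_iff]
  have ha : a = 0 := by
    ext c
    have h4 := congrArg (fun r : MonoidAlgebra ℤ N => r.coeff (f c)) h
    simp only [MonoidAlgebra.coeff_add, Finsupp.add_apply, h1, h2, add_zero] at h4
    simpa using h4
  refine ⟨ha, ?_⟩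
  rw [ha, map_zero, zero_add] at h
  ext c
  have h4 := congrArg (fun r : MonoidAlgebra ℤ N => r.coeff (f c * s)) h
  simp only [h3] at h4
  simpa using h4

end Pool.Agent.Lib.MP_0e6cae_nt.DH
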