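import Pool.Agent.Lib.MP_0e6cae_nt.DH.Base
import Pool.Agent.Lib.MP_0e6cae_nt.KF.Sym

/-!
Dihedral subgroups of a group.
-/

namespace Pool.Agent.Lib.MP_0e6cae_nt.DH

open KF

/-- In the symmetric groups every element is conjugate to its powers with exponent prime to the
order. -/
theorem conj_of_perm {H : Type} [Group H] (Γ : Subgroup H) (x : H) (hx : x ∈ Γ) (m : ℕ)
    (e : Γ ≃* Equiv.Perm (Fin m)) (a : ℕ) (ha : a.Coprime (orderOf x)) :
    ∃ γ ∈ Γ, γ * x * γ⁻¹ = x ^ a := by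
  let x' : Γ := ⟨x, hx⟩
  have h0 : orderOf (e x') = orderOf x := by
    have h1 : orderOf (e x') = orderOf x' := orderOf_injective e.toMonoidHom e.injective x'
    rw [h1]
    exact Subgroup.orderOf_mk x hx
  have hconj : IsConj (e x') (e x' ^ a) := by
    rw [Equiv.Perm.isConj_iff_cycleType_eq, cycleType_pow_coprime (e x') a (by rwa [h0])]
  obtain ⟨c, hc⟩ := isConj_iff.1 hconj
  refine ⟨(e.symm c : Γ), (e.symm c).2, ?_⟩
  have h6 : e.symm (c * e x' * c⁻¹) = e.symm (e x' ^ a) := by rw [hc]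
  rw [map_mul, map_mul, map_inv, map_pow, MulEquiv.symm_apply_apply] at h6
  exact congrArg (Subtype.val (p := fun z => z ∈ Γ)) h6

theorem conj_zpowers {H : Type} [Group H] (x s : H) (hs : s * s = 1) (hsx : s * x * s⁻¹ = x⁻¹)
    (c : H) (hc : c ∈ Subgroup.zpowers x) : s * c = c⁻¹ * s := by
  obtain ⟨k, rfl⟩ := hc
  have h1 : s * (x ^ k) * s⁻¹ = (x ^ k)⁻¹ := by
    rw [← conj_zpow, hsx, inv_zpow]
  have h2 : s * x ^ k = (x ^ k)⁻¹ * s := by
    rw [← h1, inv_mul_cancel_right]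
  exact h2

theorem mem_closure_dih {H : Type} [Group H] (x s : H) (hs : s * s = 1)
    (hsx : s * x * s⁻¹ = x⁻¹) (g : H) (hg : g ∈ Subgroup.closure {x, s}) :
    ∃ c ∈ Subgroup.zpowers x, g = c ∨ g = c * s := by
  have hsinv : s⁻¹ = s := inv_eq_of_mul_eq_one_left hs
  induction hg using Subgroup.closure_induction with
  | mem y hy =>
    rcases hy with rfl | rfl
    · exact ⟨y, Subgroup.mem_zpowers y, Or.inl rfl⟩
    · exact ⟨1, one_mem _, Or.inr (one_mul _).symm⟩
  | one => exact ⟨1, one_mem _, Or.inl rfl⟩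
  | mul a b _ _ ha hb =>
    obtain ⟨c, hc, hac⟩ := ha
    obtain ⟨d, hd, hbd⟩ := hb
    have hd' := conj_zpowers x s hs hsx d hd
    rcases hac with rfl | rfl <;> rcases hbd with rfl | rfl
    · exact ⟨a * b, mul_mem hc hd, Or.inl rfl⟩
    · exact ⟨a * d, mul_mem hc hd, Or.inr (mul_assoc _ _ _).symm⟩
    · refine ⟨c * b⁻¹, mul_mem hc (inv_mem hd), Or.inr ?_⟩
      rw [mul_assoc, hd', mul_assoc]
    · refine ⟨c * d⁻¹, mul_mem hc (inv_mem hd), Or.inl ?_⟩
      rw [mul_assoc c s, ← mul_assoc s d s, hd', mul_assoc d⁻¹, hs, mul_one]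
  | inv a _ ha =>
    obtain ⟨c, hc, hac⟩ := ha
    rcases hac with rfl | rfl
    · exact ⟨a⁻¹, inv_mem hc, Or.inl rfl⟩
    · refine ⟨c, hc, Or.inr ?_⟩
      rw [mul_inv_rev, hsinv, conj_zpowers x s hs hsx c⁻¹ (inv_mem hc), inv_inv]

theorem closure_eq_zpowers {H : Type} [Group H] (x s : H) (hns : s ∈ Subgroup.zpowers x) :
    Subgroup.closure {x, s} = Subgroup.zpowers x := by
  apply le_antisymm
  · rw [Subgroup.closure_le]
    rintro y (rfl | rfl)
    · exact Subgroup.mem_zpowers y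
    · exact hns
  · rw [Subgroup.zpowers_le]
    exact Subgroup.subset_closure (Set.mem_insert _ _)

/-- The structure `Dih` for the subgroup generated by `x` and `s`. -/
theorem exists_dih {H : Type} [Group H] [Finite H] (N : Subgroup H) (x s : H) (hs : s * s = 1)
    (hsx : s * x * s⁻¹ = x⁻¹) (hN : N = Subgroup.closure {x, s}) (hns : s ∉ Subgroup.zpowers x) :
    ∃ (C : Type) (_ : CommGroup C) (_ : Finite C) (k : C →* N) (c : C) (s' : N),
      Dih k c s' ∧ ((k c : N) : H) = x ∧ Nat.card C = orderOf x := by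
  have hle : Subgroup.zpowers x ≤ N := by
    rw [Subgroup.zpowers_le, hN]
    exact Subgroup.subset_closure (Set.mem_insert _ _)
  have hsN : s ∈ N := by
    rw [hN]
    exact Subgroup.subset_closure (Set.mem_insert_of_mem _ rfl)
  let inst : CommGroup (Subgroup.zpowers x) := IsCyclic.commGroup
  refine ⟨Subgroup.zpowers x, inst, inferInstance, Subgroup.inclusion hle,
    ⟨x, Subgroup.mem_zpowers x⟩, ⟨s, hsN⟩, ?_, rfl, Nat.card_zpowers x⟩
  refine ⟨Subgroup.inclusion_injective hle, ?_, Subtype.ext hs, ?_, ?_, ?_⟩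
  · rintro ⟨y, k, rfl⟩
    exact ⟨k, Subtype.ext rfl⟩
  · rintro ⟨c, hc⟩
    exact Subtype.ext (conj_zpowers x s hs hsx c hc)
  · rintro ⟨c, hc⟩ h
    have h1 : c = s := congrArg Subtype.val h
    exact hns (h1 ▸ hc)
  · rintro ⟨g, hg⟩
    rw [hN] at hg
    obtain ⟨c, hc, h⟩ := mem_closure_dih x s hs hsx g hg
    refine ⟨⟨c, hc⟩, ?_⟩
    rcases h with h | h
    · exact Or.inl (Subtype.ext h)
    · exact Or.inr (Subtype.ext h)

end Pool.Agent.Lib.MP_0e6cae_nt.DH
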