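import Pool.Agent.Lib.MP_0e6cae_nt.DH.Res
import Pool.Agent.Lib.MP_0e6cae_nt.DH.Grp
import Pool.Agent.Lib.MP_0e6cae_nt.KF.Fin

/-!
The main theorem for cyclic and dihedral subgroups.
-/

open CategoryTheory NumberField IsDedekindDomain

namespace Pool.Agent.Lib.MP_0e6cae_nt.DH

open St KF SW

theorem van_incl {H : Type} [Group H] [Finite H] (Γ N : Subgroup H) (hN : N ≤ Γ) (x : H)
    (hx : x ∈ N)
    (hNx : N = Subgroup.zpowers x ∨
      ∃ s : H, s * s = 1 ∧ s * x * s⁻¹ = x⁻¹ ∧ N = Subgroup.closure {x, s})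
    (hΓ : (∀ a : ℕ, a.Coprime (orderOf x) → ∃ γ ∈ Γ, γ * x * γ⁻¹ = x ^ a) ∨
      ∃ m : ℕ, Nonempty (Γ ≃* Equiv.Perm (Fin m))) :
    Van (Subgroup.inclusion hN) := by
  have hconj : ∀ a : ℕ, a.Coprime (orderOf x) → ∃ γ ∈ Γ, γ * x * γ⁻¹ = x ^ a := by
    rcases hΓ with h | ⟨m, ⟨e⟩⟩
    · exact h
    · exact fun a ha => conj_of_perm Γ x (hN hx) m e a ha
  have cyc : N = Subgroup.zpowers x → Van (Subgroup.inclusion hN) := by
    intro h
    have hcyc : IsCyclic N := by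
      rw [h]
      infer_instance
    let inst : CommGroup N := IsCyclic.commGroup
    have hgen : ∀ y : N, y ∈ Subgroup.zpowers (⟨x, hx⟩ : N) := by
      rintro ⟨y, hy⟩
      rw [h] at hy
      obtain ⟨k, rfl⟩ := hy
      exact ⟨k, Subtype.ext rfl⟩
    have hcard : Nat.card N = orderOf x := by
      rw [h]
      exact Nat.card_zpowers x
    refine van_cyc (Subgroup.inclusion hN) (⟨x, hx⟩ : N) hgen ?_
    intro a ha
    rw [hcard] at ha
    obtain ⟨γ, hγ, h1⟩ := hconj a ha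
    exact ⟨⟨γ, hγ⟩, Subtype.ext h1⟩
  rcases hNx with h | ⟨s, hs, hsx, h⟩
  · exact cyc h
  · by_cases hns : s ∈ Subgroup.zpowers x
    · exact cyc (h.trans (closure_eq_zpowers x s hns))
    · obtain ⟨C, _, _, k, c, s', D, hkc, hcard⟩ := exists_dih N x s hs hsx h hns
      refine van_dih k c s' D (Subgroup.inclusion hN) ?_
      intro a ha
      rw [hcard] at ha
      obtain ⟨γ, hγ, h1⟩ := hconj a ha
      refine ⟨⟨γ, hγ⟩, Subtype.ext ?_⟩
      change γ * ((k c : N) : H) * γ⁻¹ = ((k c : N) : H) ^ a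
      rw [hkc]
      exact h1

/-- **Main theorem.** -/
theorem main_dih (F : Type) [Field F] [NumberField F] (Γ N : Subgroup (FAut F)) (hN : N ≤ Γ)
    (x : FAut F) (hx : x ∈ N)
    (hNx : N = Subgroup.zpowers x ∨
      ∃ s : FAut F, s * s = 1 ∧ s * x * s⁻¹ = x⁻¹ ∧ N = Subgroup.closure {x, s})
    (hΓ : (∀ a : ℕ, a.Coprime (orderOf x) → ∃ γ ∈ Γ, γ * x * γ⁻¹ = x ^ a) ∨
      ∃ m : ℕ, Nonempty (Γ ≃* Equiv.Perm (Fin m)))
    (S : Set (FinPl F)) (hSfin : S.Finite) (E : St.TwoExt Γ S)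
    (hA : Module.Finite (ZG Γ) E.A) (hA' : FPD (ZG Γ) E.A)
    (hB : Module.Finite (ZG Γ) E.B) (hB' : FPD (ZG Γ) E.B) :
    ∃ (h₁ : Module.Finite (ZG N) (St.Res hN E.A)) (h₂ : FPD (ZG N) (St.Res hN E.A))
      (h₃ : Module.Finite (ZG N) (St.Res hN E.B)) (h₄ : FPD (ZG N) (St.Res hN E.B)),
      K0.mk (⟨St.Res hN E.A, h₁, h₂⟩ : FPMod (ZG N)) = K0.mk ⟨St.Res hN E.B, h₃, h₄⟩ := by
  have hfin : Finite (FAut F) := finite_faut F
  have hAB := finrank_eq hSfin E hA hB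
  have hf : Function.Injective (Subgroup.inclusion hN) := Subgroup.inclusion_injective hN
  have key := res_eq' (Subgroup.inclusion hN) hf (van_incl Γ N hN x hx hNx hΓ)
    { carrier := E.toLib.A, grp := E.toLib.grpA, mod := E.toLib.modA, fg := hA, fpd := hA' }
    { carrier := E.toLib.B, grp := E.toLib.grpB, mod := E.toLib.modB, fg := hB, fpd := hB' } hAB
  exact ⟨_, _, _, _, key⟩

end Pool.Agent.Lib.MP_0e6cae_nt.DH
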