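import Pool.Agent.Lib.MP_0e6cae_nt.DH.Base

/-!
Homomorphisms over `ℤ[C]` and over `ℤ[N]`.
-/

open CategoryTheory Polynomial

namespace Pool.Agent.Lib.MP_0e6cae_nt.DH

open KF SW

theorem exists_bezout (p : ℕ) (hp : p.Prime) (hp2 : p ≠ 2) (d : ℕ) (hpd : ¬ p ∣ d) (h3 : 3 ≤ d) :
    ∃ U V W : ℤ[X], U * (X ^ 2 - 1) + V * cyclotomic d ℤ = 1 + C (p : ℤ) * W := by
  have hfact : Fact p.Prime := ⟨hp⟩
  have hdz : NeZero ((d : ℕ) : ZMod p) := ⟨by rwa [Ne, ZMod.natCast_eq_zero_iff]⟩
  have hroot : ∀ a : ZMod p, a ^ 2 = 1 → IsCoprime (X - C a) (cyclotomic d (ZMod p)) := by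
    intro a ha
    rw [(irreducible_X_sub_C a).coprime_iff_not_dvd, dvd_iff_isRoot, isRoot_cyclotomic_iff]
    intro h
    have h1 := h.dvd_of_pow_eq_one 2 ha
    have h2 := Nat.le_of_dvd two_pos h1
    omega
  have hcop : IsCoprime (X ^ 2 - 1 : (ZMod p)[X]) (cyclotomic d (ZMod p)) := by
    have h1 : (X ^ 2 - 1 : (ZMod p)[X]) = (X - C 1) * (X - C (-1)) := by
      rw [C_neg, C_1]
      ring
    rw [h1]
    exact (hroot 1 (one_pow 2)).mul_left (hroot (-1) (by ring))
  obtain ⟨u, v, huv⟩ := hcop
  have hsurj : Function.Surjective (Polynomial.map (Int.castRingHom (ZMod p))) :=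
    Polynomial.map_surjective _ ZMod.intCast_surjective
  obtain ⟨U, rfl⟩ := hsurj u
  obtain ⟨V, rfl⟩ := hsurj v
  have h0 : Polynomial.map (Int.castRingHom (ZMod p))
      (U * (X ^ 2 - 1) + V * cyclotomic d ℤ - 1) = 0 := by
    rw [Polynomial.map_sub, Polynomial.map_add, Polynomial.map_mul, Polynomial.map_mul,
      Polynomial.map_sub, Polynomial.map_pow, Polynomial.map_X, Polynomial.map_one,
      map_cyclotomic_int, huv, sub_self]
  have hdvd : C (p : ℤ) ∣ U * (X ^ 2 - 1) + V * cyclotomic d ℤ - 1 := by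
    rw [C_dvd_iff_dvd_coeff]
    intro i
    have h1 := congrArg (fun P : (ZMod p)[X] => P.coeff i) h0
    simp only [coeff_map, coeff_zero] at h1
    rwa [eq_intCast, ZMod.intCast_zmod_eq_zero_iff_dvd] at h1
  obtain ⟨W, hW⟩ := hdvd
  exact ⟨U, V, W, by linear_combination hW⟩

variable {C N : Type} [CommGroup C] [Group N] {f : C →* N} {x : C} {s : N}

/-- (`X^2 - 1` and `Φ_d` are coprime in `𝔽_p[X]`: a common root in the algebraic closure would be
`±1` and a primitive `d`-th root of unity, `d ≥ 3`; so `U (X^2 - 1) + V Φ_d = 1 + p W` in `ℤ[X]`.) -/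
theorem delta_inv [Finite C] [Finite N] (D : Dih f x s) (p : ℕ) (hp : p.Prime)
    (hpn : ¬ p ∣ Nat.card N) (d : ℕ) (hd : d ∣ Nat.card C) (h3 : 3 ≤ d) (M : Type)
    [AddCommGroup M] [Module (MonoidAlgebra ℤ N) M] (hMp : ∀ y : M, p • y = 0)
    (hMd : ∀ y : M, aeval (el (f x)) (cyclotomic d ℤ) • y = 0) :
    Function.Bijective fun y : M => (el (f x) - el (f x⁻¹)) • y := by
  rw [D.card] at hpn
  have hp2 : p ≠ 2 := by
    rintro rfl
    exact hpn (dvd_mul_right _ _)
  have hpd : ¬ p ∣ d := fun h => hpn ((h.trans hd).mul_left 2)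
  obtain ⟨U, V, W, h⟩ := exists_bezout p hp hp2 d hpd h3
  -- the inverse
  set δ : MonoidAlgebra ℤ N := el (f x) - el (f x⁻¹) with hδ
  have hδ2 : δ = io f (el x - el x⁻¹) := by rw [map_sub, io_single, io_single]
  have h1 : ∀ y : M, io f (aeval (el x) U * el x * (el x - el x⁻¹)) • y = y := by
    intro y
    have h2 : aeval (el x) U * el x * (el x - el x⁻¹) =
        1 + (p : MonoidAlgebra ℤ C) * aeval (el x) W -
          aeval (el x) V * aeval (el x) (cyclotomic d ℤ) := by
      have h4 := congrArg (aeval (el x)) h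
      simp only [map_add, map_mul, map_sub, map_pow, aeval_X, map_one, aeval_C, map_natCast] at h4
      have h5 : el x * el x⁻¹ = 1 := by rw [el_mul, mul_inv_cancel, el_one]
      linear_combination h4 - (aeval (el x) U) * h5
    rw [h2, map_sub, map_add, map_mul, map_mul, map_one, map_natCast, sub_smul, add_smul, one_smul,
      mul_smul, mul_smul, io_aeval f x (cyclotomic d ℤ), hMd, smul_zero, sub_zero]
    have h6 : (p : MonoidAlgebra ℤ N) • (io f (aeval (el x) W) • y) =
        p • (io f (aeval (el x) W) • y) := Nat.cast_smul_eq_nsmul _ _ _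
    rw [h6, hMp, add_zero]
  refine Function.bijective_iff_has_inverse.2
    ⟨fun y => io f (aeval (el x) U * el x) • y, fun y => ?_, fun y => ?_⟩
  · change io f (aeval (el x) U * el x) • (δ • y) = y
    rw [hδ2, ← mul_smul, ← map_mul, h1]
  · change δ • (io f (aeval (el x) U * el x) • y) = y
    rw [hδ2, ← mul_smul, ← map_mul, mul_comm, h1]

theorem map_smul_of_el {G : Type} [Group G] {M S : Type} [AddCommGroup M]
    [Module (MonoidAlgebra ℤ G) M] [AddCommGroup S] [Module (MonoidAlgebra ℤ G) S] (φ : M →+ S)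
    (h : ∀ (g : G) (y : M), φ (el g • y) = el g • φ y) (r : MonoidAlgebra ℤ G) (y : M) :
    φ (r • y) = r • φ y := by
  induction r using MonoidAlgebra.induction_linear with
  | zero => rw [zero_smul, zero_smul, map_zero]
  | add a b ha hb => rw [add_smul, add_smul, map_add, ha, hb]
  | single g n =>
    have h1 : (MonoidAlgebra.single g n : MonoidAlgebra ℤ G) = n • el g := by
      rw [el, MonoidAlgebra.smul_single, smul_eq_mul, mul_one]
    rw [h1, smul_assoc, smul_assoc, map_zsmul, h]

/-- (`Hom_C(M, S)` is the direct sum of the eigenspaces of the involution `φ ↦ s φ s` (the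
characteristic is odd); the `+1`-eigenspace is `Hom_N(M, S)`; `φ ↦ φ ∘ δ` with `δ = x - x⁻¹`
(`s δ = - δ s`, bijective on `M` by `delta_inv`) exchanges the eigenspaces.) -/
theorem card_hom_sq [Finite C] [Finite N] (D : Dih f x s) (p : ℕ) (hp : p.Prime)
    (hpn : ¬ p ∣ Nat.card N) (d : ℕ) (hd : d ∣ Nat.card C) (h3 : 3 ≤ d) (M S : Type)
    [AddCommGroup M] [Module (MonoidAlgebra ℤ N) M] [AddCommGroup S]
    [Module (MonoidAlgebra ℤ N) S] [Finite M] [Finite S] (hMp : ∀ y : M, p • y = 0)
    (hMd : ∀ y : M, aeval (el (f x)) (cyclotomic d ℤ) • y = 0) :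
    Nat.card (ResF f M →ₗ[MonoidAlgebra ℤ C] ResF f S) =
      Nat.card (M →ₗ[MonoidAlgebra ℤ N] S) ^ 2 := by
  have hδ := delta_inv D p hp hpn d hd h3 M hMp hMd
  set δ : MonoidAlgebra ℤ N := el (f x) - el (f x⁻¹) with hδdef
  rw [D.card] at hpn
  have hp2 : p ≠ 2 := by
    rintro rfl
    exact hpn (dvd_mul_right _ _)
  obtain ⟨k, hk⟩ : ∃ k, p = 2 * k + 1 := (hp.eq_two_or_odd'.resolve_left hp2)
  have hss : ∀ y : M, el s • (el s • y) = y := by
    intro y
    rw [← mul_smul, el_mul, D.sq, el_one, one_smul]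
  have hssS : ∀ y : S, el s • (el s • y) = y := by
    intro y
    rw [← mul_smul, el_mul, D.sq, el_one, one_smul]
  have hδs : ∀ y : M, δ • (el s • y) = -(el s • (δ • y)) := by
    intro y
    have h1 : δ * el s = -(el s * δ) := by
      rw [hδdef, mul_sub, D.s_mul_el, D.s_mul_el, inv_inv, sub_mul, neg_sub]
    rw [← mul_smul, h1, neg_smul, mul_smul]
  have hδc : ∀ (c : C) (y : M), δ • (el (f c) • y) = el (f c) • (δ • y) := by
    intro c y
    have h1 : δ * el (f c) = el (f c) * δ := by
      rw [hδdef, sub_mul, mul_sub, el_mul, el_mul, el_mul, el_mul, ← map_mul, ← map_mul, ← map_mul,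
        ← map_mul, mul_comm x, mul_comm x⁻¹]
    rw [← mul_smul, h1, mul_smul]
  -- the two groups of homomorphisms in terms of additive maps
  let HC := {φ : M →+ S // ∀ (c : C) (y : M), φ (el (f c) • y) = el (f c) • φ y}
  let HN := {φ : M →+ S // (∀ (c : C) (y : M), φ (el (f c) • y) = el (f c) • φ y) ∧
    ∀ y : M, φ (el s • y) = el s • φ y}
  have eC : (ResF f M →ₗ[MonoidAlgebra ℤ C] ResF f S) ≃ HC :=
    { toFun := fun φ => ⟨φ.toAddMonoidHom, fun c y => by
        have h1 := φ.map_smul (el c) (ResF.of f M y)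
        rw [ResF.single_smul] at h1
        exact h1.trans (ResF.single_smul f S c 1 ((ResF.of f S).symm (φ (ResF.of f M y))))⟩
      invFun := fun φ =>
        { toFun := fun y => φ.1 y
          map_add' := fun y z => map_add φ.1 y z
          map_smul' := fun r y =>
            map_smul_of_el (G := C) (M := ResF f M) (S := ResF f S) φ.1
              (fun c y => (congrArg φ.1 (ResF.single_smul f M c 1 y)).trans
                ((φ.2 c y).trans (ResF.single_smul f S c 1 (φ.1 y)).symm)) r y }
      left_inv := fun φ => rfl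
      right_inv := fun φ => rfl }
  have eN : (M →ₗ[MonoidAlgebra ℤ N] S) ≃ HN :=
    { toFun := fun φ => ⟨φ.toAddMonoidHom, fun c y => φ.map_smul (el (f c)) y,
        fun y => φ.map_smul (el s) y⟩
      invFun := fun φ =>
        { toFun := fun y => φ.1 y
          map_add' := fun y z => map_add φ.1 y z
          map_smul' := fun r y => map_smul_of_el φ.1 (fun g y => by
            obtain ⟨c, rfl | rfl⟩ := D.all g
            · exact φ.2.1 c y
            · rw [← el_mul, mul_smul, mul_smul, φ.2.1, φ.2.2]) r y }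
      left_inv := fun φ => rfl
      right_inv := fun φ => rfl }
  have hpS : ∀ (φ : M →+ S) (y : M), p • φ y = 0 := by
    intro φ y
    rw [← map_nsmul, hMp, map_zero]
  -- composition with `δ`
  let T : M →+ M :=
    { toFun := fun y => δ • y
      map_zero' := smul_zero _
      map_add' := fun y z => smul_add _ y z }
  let F : HN × HN → HC := fun q => ⟨q.1.1 + q.2.1.comp T, fun c y => by
    have h1 := q.1.2.1 c y
    have h2 := q.2.2.1 c (δ • y)
    change q.1.1 (el (f c) • y) + q.2.1 (δ • (el (f c) • y)) = el (f c) • (q.1.1 y + q.2.1 (δ • y))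
    rw [hδc, h1, h2, smul_add]⟩
  have hF : ∀ (q : HN × HN) (y : M), (F q).1 y = q.1.1 y + q.2.1 (δ • y) := fun q y => rfl
  have hbij : Function.Bijective F := by
    constructor
    · rintro ⟨α, β⟩ ⟨α', β'⟩ h
      have h1 : ∀ y : M, α.1 y + β.1 (δ • y) = α'.1 y + β'.1 (δ • y) := fun y => by
        rw [← hF ⟨α, β⟩ y, ← hF ⟨α', β'⟩ y, h]
      have h2 : ∀ y : M, α.1 y - β.1 (δ • y) = α'.1 y - β'.1 (δ • y) := by
        intro y
        have h4 := congrArg (fun z : S => el s • z) (h1 (el s • y))
        simp only [smul_add] at h4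
        rw [hδs, map_neg, map_neg, α.2.2, α'.2.2, β.2.2, β'.2.2, smul_neg, smul_neg, hssS, hssS,
          hssS, hssS, ← sub_eq_add_neg, ← sub_eq_add_neg] at h4
        exact h4
      have h5 : ∀ y : M, α.1 y = α'.1 y := by
        intro y
        have h6 : (2 : ℕ) • (α.1 y - α'.1 y) = 0 := by
          have h7 : α.1 y - α'.1 y = β'.1 (δ • y) - β.1 (δ • y) := by
            rw [sub_eq_sub_iff_add_eq_add, h1, add_comm]
          have h8 : α.1 y - α'.1 y = β.1 (δ • y) - β'.1 (δ • y) := by
            rw [sub_eq_sub_iff_add_eq_add, add_comm (α.1 y)]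
            have h9 := h2 y
            rw [sub_eq_sub_iff_add_eq_add] at h9
            rw [add_comm (β'.1 (δ • y)), h9, add_comm]
          rw [two_nsmul]
          nth_rewrite 1 [h7]
          rw [h8]
          abel
        have h9 : (p : ℕ) • (α.1 y - α'.1 y) = 0 := by
          rw [smul_sub, hpS, hpS, sub_zero]
        rw [hk, add_smul, mul_comm, mul_smul, h6, smul_zero, zero_add, one_smul] at h9
        exact sub_eq_zero.1 h9
      have hα : α = α' := Subtype.ext (AddMonoidHom.ext h5)
      have hβ : β = β' := by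
        refine Subtype.ext (AddMonoidHom.ext fun z => ?_)
        obtain ⟨y, rfl⟩ := hδ.2 z
        have h6 := h1 y
        rw [h5 y] at h6
        exact add_left_cancel h6
      rw [hα, hβ]
    · intro φ
      let e : M ≃+ M := AddEquiv.ofBijective T hδ
      have he : ∀ y : M, δ • (e.symm y) = y := fun y => e.apply_symm_apply y
      have hes : ∀ y : M, e.symm (el s • y) = -(el s • e.symm y) := by
        intro y
        refine e.injective ?_
        rw [AddEquiv.apply_symm_apply]
        change _ = δ • (-(el s • e.symm y))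
        rw [smul_neg, hδs, neg_neg, he]
      have hec : ∀ (c : C) (y : M), e.symm (el (f c) • y) = el (f c) • e.symm y := by
        intro c y
        refine e.injective ?_
        rw [AddEquiv.apply_symm_apply]
        change _ = δ • (el (f c) • e.symm y)
        rw [hδc, he]
      let sM : M →+ M :=
        { toFun := fun y => el s • y
          map_zero' := smul_zero _
          map_add' := fun y z => smul_add _ y z }
      let sS : S →+ S :=
        { toFun := fun y => el s • y
          map_zero' := smul_zero _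
          map_add' := fun y z => smul_add _ y z }
      let φ' : M →+ S := sS.comp (φ.1.comp sM)
      have hφ' : ∀ y : M, φ' y = el s • φ.1 (el s • y) := fun y => rfl
      have hφ'c : ∀ (c : C) (y : M), φ' (el (f c) • y) = el (f c) • φ' y := by
        intro c y
        rw [hφ', hφ', ← mul_smul (el s) (el (f c)), D.s_mul_el, mul_smul, φ.2, ← mul_smul (el s),
          D.s_mul_el, inv_inv, mul_smul]
      have hφ's : ∀ y : M, φ' (el s • y) = el s • φ.1 y := by
        intro y
        rw [hφ', hss]
      have hφs : ∀ y : M, φ.1 (el s • y) = el s • φ' y := by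
        intro y
        rw [hφ', hssS]
      let α : HN := ⟨(k + 1) • (φ.1 + φ'), fun c y => by
          change (k + 1) • (φ.1 (el (f c) • y) + φ' (el (f c) • y)) =
            el (f c) • ((k + 1) • (φ.1 y + φ' y))
          rw [φ.2, hφ'c, ← smul_add, smul_comm], fun y => by
          change (k + 1) • (φ.1 (el s • y) + φ' (el s • y)) = el s • ((k + 1) • (φ.1 y + φ' y))
          rw [hφs, hφ's, ← smul_add, smul_comm, add_comm (φ' y)]⟩
      let β : HN := ⟨((k + 1) • (φ.1 - φ')).comp e.symm.toAddMonoidHom, fun c y => by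
          change (k + 1) • (φ.1 (e.symm (el (f c) • y)) - φ' (e.symm (el (f c) • y))) =
            el (f c) • ((k + 1) • (φ.1 (e.symm y) - φ' (e.symm y)))
          rw [hec, φ.2, hφ'c, ← smul_sub, smul_comm], fun y => by
          change (k + 1) • (φ.1 (e.symm (el s • y)) - φ' (e.symm (el s • y))) =
            el s • ((k + 1) • (φ.1 (e.symm y) - φ' (e.symm y)))
          rw [hes, map_neg, map_neg, hφs, hφ's, smul_comm (el s) (k + 1), smul_sub (el s)]
          congr 1
          abel⟩
      refine ⟨⟨α, β⟩, Subtype.ext (AddMonoidHom.ext fun y => ?_)⟩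
      rw [hF]
      change (k + 1) • (φ.1 y + φ' y) +
        (k + 1) • (φ.1 (e.symm (δ • y)) - φ' (e.symm (δ • y))) = φ.1 y
      have h6 : e.symm (δ • y) = y := e.symm_apply_apply y
      rw [h6, ← smul_add]
      have h7 : φ.1 y + φ' y + (φ.1 y - φ' y) = 2 • φ.1 y := by
        rw [two_nsmul]
        abel
      have h8 : (k + 1) • (2 • φ.1 y) = p • φ.1 y + φ.1 y := by
        rw [smul_smul, hk, ← succ_nsmul]
        congr 1
        ring
      rw [h7, h8, hpS, zero_add]
  have hHN : Nat.card HC = Nat.card HN ^ 2 := by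
    rw [← Nat.card_congr (Equiv.ofBijective F hbij), Nat.card_prod, sq]
  rw [Nat.card_congr eC, Nat.card_congr eN]
  exact hHN

end Pool.Agent.Lib.MP_0e6cae_nt.DH
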