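import Mathlib

/-!
Finite semisimple modules are determined by the numbers of homomorphisms to the simple modules.
-/

namespace Pool.Agent.Lib.MP_0e6cae_nt.DH

theorem SS_split {A : Type} [Ring A] {M S : Type} [AddCommGroup M] [Module A M]
    [AddCommGroup S] [Module A S] [IsSemisimpleModule A M] (f : M →ₗ[A] S)
    (hf : Function.Surjective f) : Nonempty (M ≃ₗ[A] (LinearMap.ker f) × S) := by
  obtain ⟨C, hC⟩ := exists_isCompl (LinearMap.ker f)
  have e1 := Submodule.prodEquivOfIsCompl (LinearMap.ker f) C hC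
  have e2 := Submodule.quotientEquivOfIsCompl (LinearMap.ker f) C hC
  have e3 := f.quotKerEquivOfSurjective hf
  exact ⟨e1.symm.trans (LinearEquiv.prodCongr (LinearEquiv.refl A _) (e2.symm.trans e3))⟩

theorem SS_hom {A : Type} [Ring A] {M N S T : Type} [AddCommGroup M] [Module A M]
    [AddCommGroup N] [Module A N] [AddCommGroup S] [Module A S] [AddCommGroup T] [Module A T]
    (e : M ≃ₗ[A] N × S) :
    Nat.card (M →ₗ[A] T) = Nat.card (N →ₗ[A] T) * Nat.card (S →ₗ[A] T) := by
  rw [← Nat.card_prod]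
  refine Nat.card_congr ⟨fun f => ((f.comp e.symm.toLinearMap).comp (LinearMap.inl A N S),
    (f.comp e.symm.toLinearMap).comp (LinearMap.inr A N S)),
    fun g => (g.1.coprod g.2).comp e.toLinearMap, fun f => ?_, fun g => ?_⟩
  · ext m
    have h1 : e.symm ((e m).1, 0) + e.symm (0, (e m).2) = m := by
      rw [← map_add, Prod.mk_add_mk, add_zero, zero_add, Prod.mk.eta, e.symm_apply_apply]
    simp only [LinearMap.comp_apply, LinearEquiv.coe_coe, LinearMap.coprod_apply,
      LinearMap.inl_apply, LinearMap.inr_apply]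
    rw [← map_add, h1]
  · refine Prod.ext ?_ ?_
    · ext m
      simp
    · ext m
      simp

theorem SS_pos {A : Type} [Ring A] {M T : Type} [AddCommGroup M] [Module A M]
    [AddCommGroup T] [Module A T] [Finite M] [Finite T] : 0 < Nat.card (M →ₗ[A] T) := by
  have : Finite (M →ₗ[A] T) := Finite.of_injective _ (DFunLike.coe_injective)
  have : Nonempty (M →ₗ[A] T) := ⟨0⟩
  exact Nat.card_pos

theorem SS_ne {A : Type} [Ring A] {M T : Type} [AddCommGroup M] [Module A M]
    [AddCommGroup T] [Module A T] [Finite M] [Finite T] :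
    1 < Nat.card (M →ₗ[A] T) ↔ ∃ f : M →ₗ[A] T, f ≠ 0 := by
  have : Finite (M →ₗ[A] T) := Finite.of_injective _ (DFunLike.coe_injective)
  rw [Finite.one_lt_card_iff_nontrivial]
  exact ⟨fun _ => exists_ne 0, fun ⟨f, hf⟩ => ⟨f, 0, hf⟩⟩

theorem SS_ind {A : Type} [Ring A] (n : ℕ) : ∀ (M M' : Type) [AddCommGroup M] [Module A M]
    [AddCommGroup M'] [Module A M'] [Finite M] [Finite M'] [IsSemisimpleModule A M]
    [IsSemisimpleModule A M'], Nat.card M = n →
    (∀ (S : Type) [AddCommGroup S] [Module A S] [Finite S], IsSimpleModule A S →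
      Nat.card (M →ₗ[A] S) = Nat.card (M' →ₗ[A] S)) → Nonempty (M ≃ₗ[A] M') := by
  induction n using Nat.strong_induction_on with
  | _ n ih =>
    intro M M' _ _ _ _ _ _ _ _ hn h
    rcases subsingleton_or_nontrivial M with hM | hM
    · rcases subsingleton_or_nontrivial M' with hM' | hM'
      · exact ⟨⟨0, 0, fun x => Subsingleton.elim _ _, fun x => Subsingleton.elim _ _⟩⟩
      · exfalso
        obtain ⟨N, hN⟩ := IsCoatomic.exists_coatom (Submodule A M')
        have hS : IsSimpleModule A (M' ⧸ N) := isSimpleModule_iff_isCoatom.2 hN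
        have hF : Finite (M' ⧸ N) := Finite.of_surjective _ N.mkQ_surjective
        have h1 := h (M' ⧸ N) hS
        have h2 : 1 < Nat.card (M' →ₗ[A] (M' ⧸ N)) := by
          rw [SS_ne]
          refine ⟨N.mkQ, fun h0 => hN.1 ?_⟩
          rw [← N.ker_mkQ, h0, LinearMap.ker_zero]
        rw [← h1, SS_ne] at h2
        obtain ⟨f, hf⟩ := h2
        apply hf
        ext x
        rw [Subsingleton.elim x 0, map_zero, map_zero]
    · obtain ⟨N, hN⟩ := IsCoatomic.exists_coatom (Submodule A M)
      have hS : IsSimpleModule A (M ⧸ N) := isSimpleModule_iff_isCoatom.2 hN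
      have hF : Finite (M ⧸ N) := Finite.of_surjective _ N.mkQ_surjective
      have h1 := h (M ⧸ N) hS
      have h2 : 1 < Nat.card (M →ₗ[A] (M ⧸ N)) := by
        rw [SS_ne]
        refine ⟨N.mkQ, fun h0 => hN.1 ?_⟩
        rw [← N.ker_mkQ, h0, LinearMap.ker_zero]
      rw [h1, SS_ne] at h2
      obtain ⟨f, hf⟩ := h2
      have hfs : Function.Surjective f := (LinearMap.surjective_or_eq_zero f).resolve_right hf
      obtain ⟨e⟩ := SS_split N.mkQ N.mkQ_surjective
      obtain ⟨e'⟩ := SS_split f hfs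
      have hlt : Nat.card (LinearMap.ker N.mkQ) < n := by
        rw [← hn, Nat.card_congr e.toEquiv, Nat.card_prod]
        have h3 : 1 < Nat.card (M ⧸ N) := by
          rw [Finite.one_lt_card_iff_nontrivial]
          exact IsSimpleModule.nontrivial A _
        have h4 : 0 < Nat.card (LinearMap.ker N.mkQ) := Nat.card_pos
        exact lt_mul_of_one_lt_right h4 h3
      obtain ⟨g⟩ := ih _ hlt (LinearMap.ker N.mkQ) (LinearMap.ker f) rfl (by
        intro T _ _ _ hT
        have h3 := h T hT
        rw [SS_hom e, SS_hom e'] at h3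
        exact Nat.eq_of_mul_eq_mul_right SS_pos h3)
      exact ⟨e.trans ((LinearEquiv.prodCongr g (LinearEquiv.refl A _)).trans e'.symm)⟩

/-- (Induction on the cardinality: if `M ≠ 0` it has a simple quotient `S`, so `M = M₁ ⊕ S`;
`|Hom(M', S)| = |Hom(M, S)| > 1`, so also `M' = M₁' ⊕ S`; cancel `|Hom(S, T)|`.) -/
theorem equiv_of_card_hom {A : Type} [Ring A] (M M' : Type) [AddCommGroup M] [Module A M]
    [AddCommGroup M'] [Module A M'] [Finite M] [Finite M'] [IsSemisimpleModule A M]
    [IsSemisimpleModule A M']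
    (h : ∀ (S : Type) [AddCommGroup S] [Module A S] [Finite S], IsSimpleModule A S →
      Nat.card (M →ₗ[A] S) = Nat.card (M' →ₗ[A] S)) : Nonempty (M ≃ₗ[A] M') :=
  SS_ind _ M M' rfl h

end Pool.Agent.Lib.MP_0e6cae_nt.DH
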