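import Pool.Agent.Lib.MP_0e6cae_nt.DH.Pal
import Pool.Agent.Lib.MP_0e6cae_nt.DH.Hom2
import Pool.Agent.Lib.MP_0e6cae_nt.DH.SS
import Pool.Agent.Lib.MP_0e6cae_nt.KF.FreeC

/-!
Modules over the twisted group ring of `𝔽_p[X]/(Φ_d)`.
-/

open CategoryTheory Polynomial

namespace Pool.Agent.Lib.MP_0e6cae_nt.DH

open KF SW

private theorem free_ker {N : Type} [Group N] (p : ℕ) (M : Type) [AddCommGroup M]
    [Module (MonoidAlgebra ℤ N) M] (hM : ∀ y : M, p • y = 0) (r : MonoidAlgebra ℤ N)
    (hr : MonoidAlgebra.mapRingHom N (Int.castRingHom (ZMod p)) r = 0) (y : M) : r • y = 0 := by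
  have h1 : ∀ g : N, ∃ c : ℤ, r.coeff g = p * c := by
    intro g
    have h2 := MonoidAlgebra.coeff_mapRingHom (Int.castRingHom (ZMod p)) r g
    rw [hr, MonoidAlgebra.coeff_zero] at h2
    have h3 : ((r.coeff g : ℤ) : ZMod p) = 0 := h2.symm
    rw [ZMod.intCast_zmod_eq_zero_iff_dvd] at h3
    exact h3
  rw [← MonoidAlgebra.sum_coeff_single r, Finsupp.sum, Finset.sum_smul]
  refine Finset.sum_eq_zero fun g _ => ?_
  obtain ⟨c, hc⟩ := h1 g
  have h4 : (MonoidAlgebra.single g (r.coeff g) : MonoidAlgebra ℤ N) =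
      p • MonoidAlgebra.single g c := by
    rw [hc, MonoidAlgebra.smul_single, nsmul_eq_mul]
  rw [h4, smul_assoc]
  exact hM _

/-- Maschke's theorem (see the proof of `KF.kil_semisimple`, which works for every finite group). -/
theorem semisimple_of_kill {N : Type} [Group N] [Finite N] (p : ℕ) (hp : p.Prime)
    (hpn : ¬ p ∣ Nat.card N) (M : Type) [AddCommGroup M] [Module (MonoidAlgebra ℤ N) M]
    (hM : ∀ y : M, p • y = 0) : IsSemisimpleModule (MonoidAlgebra ℤ N) M := by
  have := Fact.mk hp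
  have : NeZero (Nat.card N : ZMod p) := ⟨by rwa [Ne, ZMod.natCast_eq_zero_iff]⟩
  set f : MonoidAlgebra ℤ N →+* MonoidAlgebra (ZMod p) N :=
    MonoidAlgebra.mapRingHom N (Int.castRingHom (ZMod p)) with hf
  have hsurj : Function.Surjective f := by
    intro y
    induction y using MonoidAlgebra.induction_linear with
    | zero => exact ⟨0, map_zero f⟩
    | add a b ha hb =>
      obtain ⟨a', rfl⟩ := ha
      obtain ⟨b', rfl⟩ := hb
      exact ⟨a' + b', map_add f a' b'⟩
    | single g c =>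
      obtain ⟨z, rfl⟩ := ZMod.intCast_surjective c
      exact ⟨MonoidAlgebra.single g z, MonoidAlgebra.mapRingHom_single _ _ _⟩
  have hss : IsSemisimpleRing (MonoidAlgebra ℤ N ⧸ RingHom.ker f) :=
    (RingHom.quotientKerEquivOfSurjective hsurj).symm.isSemisimpleRing
  have htor : Module.IsTorsionBySet (MonoidAlgebra ℤ N) M (RingHom.ker f) := by
    rintro y ⟨r, hr⟩
    exact free_ker p M hM r hr y
  let _ := htor.module
  exact htor.isSemisimpleModule_iff.1 inferInstance

variable {C N : Type} [CommGroup C] [Group N] {f : C →* N} {x : C} {s : N}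

private theorem free_kil_pm (D : Dih f x s) (p : ℕ) (A : ℤ[X]) (y : PM f x s p A) :
    p • y = 0 ∧ aeval (el (f x)) A • y = 0 := by
  obtain ⟨r, rfl⟩ := pm_surj D p A y
  constructor
  · have h1 : p • (Submodule.Quotient.mk (io f r) : PM f x s p A) =
        Submodule.Quotient.mk (io f r * (p : MonoidAlgebra ℤ N)) := by
      rw [← Submodule.Quotient.mk_smul, nsmul_eq_mul, Nat.cast_comm]
    rw [h1, Submodule.Quotient.mk_eq_zero]
    exact Submodule.smul_mem _ (io f r) (Submodule.subset_span (Set.mem_insert _ _))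
  · have h1 : aeval (el (f x)) A • (Submodule.Quotient.mk (io f r) : PM f x s p A) =
        Submodule.Quotient.mk (io f r * aeval (el (f x)) A) := by
      rw [← Submodule.Quotient.mk_smul, smul_eq_mul, ← io_aeval, ← map_mul, mul_comm, map_mul]
    rw [h1, Submodule.Quotient.mk_eq_zero]
    exact Submodule.smul_mem _ (io f r)
      (Submodule.subset_span (Set.mem_insert_of_mem _ (Set.mem_insert _ _)))

/-- (`KF.exists_free` for `ResF f M`; `ResF f (PM Φ_d) = QM Φ_d` (`pm_res`, `pal_cyclotomic`);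
`card_hom_sq` for `M` and for `PM ^ k`; `equiv_of_card_hom`.) -/
theorem exists_free_dih [Finite C] [Finite N] (D : Dih f x s) (p : ℕ) (hp : p.Prime)
    (hpn : ¬ p ∣ Nat.card N) (d : ℕ) (hd : d ∣ Nat.card C) (h3 : 3 ≤ d) (M : Type)
    [AddCommGroup M] [Module (MonoidAlgebra ℤ N) M] [Finite M] (hMp : ∀ y : M, p • y = 0)
    (hMd : ∀ y : M, aeval (el (f x)) (cyclotomic d ℤ) • y = 0) (hA : Aut x (ResF f M)) :
    ∃ k : ℕ, Nonempty (M ≃ₗ[MonoidAlgebra ℤ N] (Fin k → PM f x s p (cyclotomic d ℤ))) := by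
  have hpc : ¬ p ∣ Nat.card C := by
    intro h
    apply hpn
    rw [D.card]
    exact h.mul_left 2
  have hfinR : Finite (ResF f M) := Finite.of_equiv M (ResF.of f M).toEquiv
  have hK : Kil x p d (ResF f M) := by
    constructor
    · intro y
      exact hMp y
    · intro y
      have h1 := hMd ((ResF.of f M).symm y)
      rw [← io_aeval] at h1
      exact h1
  obtain ⟨k, ⟨e1⟩⟩ := exists_free x D.gen p hp hpc d hd (ResF f M) hK hA
  obtain ⟨e2⟩ := pm_res D p (cyclotomic d ℤ) (pal_cyclotomic x d hd)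
  have hPfin : Finite (PM f x s p (cyclotomic d ℤ)) := (PM.fcop f x s p hp hpn _).1
  have hkil := free_kil_pm D p (cyclotomic d ℤ)
  have hkp : ∀ y : Fin k → PM f x s p (cyclotomic d ℤ), p • y = 0 :=
    fun y => funext fun i => (hkil (y i)).1
  have hkd : ∀ y : Fin k → PM f x s p (cyclotomic d ℤ),
      aeval (el (f x)) (cyclotomic d ℤ) • y = 0 := fun y => funext fun i => (hkil (y i)).2
  -- the restriction of the power
  let e3 : ResF f (Fin k → PM f x s p (cyclotomic d ℤ)) ≃ₗ[MonoidAlgebra ℤ C]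
      (Fin k → ResF f (PM f x s p (cyclotomic d ℤ))) :=
    { toFun := fun y i => ResF.of f _ ((ResF.of f _).symm y i)
      map_add' := fun _ _ => rfl
      map_smul' := fun _ _ => rfl
      invFun := fun y => ResF.of f _ fun i => (ResF.of f _).symm (y i)
      left_inv := fun _ => rfl
      right_inv := fun _ => rfl }
  let e4 : ResF f M ≃ₗ[MonoidAlgebra ℤ C] ResF f (Fin k → PM f x s p (cyclotomic d ℤ)) :=
    (e1.trans (LinearEquiv.piCongrRight fun _ => e2.symm)).trans e3.symm
  have hss1 := semisimple_of_kill p hp hpn M hMp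
  have hss2 := semisimple_of_kill p hp hpn (Fin k → PM f x s p (cyclotomic d ℤ)) hkp
  refine ⟨k, equiv_of_card_hom M (Fin k → PM f x s p (cyclotomic d ℤ)) ?_⟩
  intro S _ _ _ _
  have h1 := card_hom_sq D p hp hpn d hd h3 M S hMp hMd
  have h2 := card_hom_sq D p hp hpn d hd h3 (Fin k → PM f x s p (cyclotomic d ℤ)) S hkp hkd
  have h4 : Nat.card (ResF f M →ₗ[MonoidAlgebra ℤ C] ResF f S) =
      Nat.card (ResF f (Fin k → PM f x s p (cyclotomic d ℤ)) →ₗ[MonoidAlgebra ℤ C] ResF f S) :=
    Nat.card_congr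
      { toFun := fun φ => φ ∘ₗ e4.symm.toLinearMap
        invFun := fun φ => φ ∘ₗ e4.toLinearMap
        left_inv := fun φ => by
          refine LinearMap.ext fun y => ?_
          change φ (e4.symm (e4 y)) = φ y
          rw [LinearEquiv.symm_apply_apply]
        right_inv := fun φ => by
          refine LinearMap.ext fun y => ?_
          change φ (e4 (e4.symm y)) = φ y
          rw [LinearEquiv.apply_symm_apply] }
  rw [h1, h2] at h4
  exact Nat.pow_left_injective (n := 2) (by norm_num) h4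

end Pool.Agent.Lib.MP_0e6cae_nt.DH
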