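import Pool.Agent.Lib.MP_0e6cae_nt.KF.Cyc

/-!
Quotients of `ℤ[N]` by left ideals.
-/

open CategoryTheory

namespace Pool.Agent.Lib.MP_0e6cae_nt.DH

open KF

/-- The quotient of `ℤ[N]` by the left ideal generated by `T`. -/
abbrev LQ {N : Type} [Group N] (T : Set (MonoidAlgebra ℤ N)) : Type :=
  MonoidAlgebra ℤ N ⧸ Submodule.span (MonoidAlgebra ℤ N) T

variable {N : Type} [Group N] [Finite N]

theorem LQ.fcop (p : ℕ) (hp : p.Prime) (hpn : ¬ p ∣ Nat.card N) (T : Set (MonoidAlgebra ℤ N))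
    (hT : (p : MonoidAlgebra ℤ N) ∈ Submodule.span (MonoidAlgebra ℤ N) T) : FCop N (LQ T) := by
  have hfin : Module.Finite ℤ (LQ T) := Module.Finite.trans (MonoidAlgebra ℤ N) (LQ T)
  obtain ⟨h1, j, hj⟩ := cyc_pgroup (LQ T) p hp (by
    intro m
    obtain ⟨m, rfl⟩ := Submodule.mkQ_surjective _ m
    rw [← map_nsmul, Submodule.mkQ_apply, Submodule.Quotient.mk_eq_zero, nsmul_eq_mul,
      Nat.cast_comm]
    exact Submodule.smul_mem _ m hT)
  refine ⟨h1, ?_⟩
  rw [hj]
  exact Nat.Coprime.pow_left j ((Nat.Prime.coprime_iff_not_dvd hp).2 hpn)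

theorem LQ.congr {T T' : Set (MonoidAlgebra ℤ N)}
    (h : Submodule.span (MonoidAlgebra ℤ N) T = Submodule.span (MonoidAlgebra ℤ N) T')
    (hT : FCop N (LQ T)) (hT' : FCop N (LQ T')) : fcl N (LQ T) hT = fcl N (LQ T') hT' :=
  fcl_equiv hT hT' (Submodule.quotEquivOfEq _ _ h)

/-- `0 → ℤ[N] → ℤ[N] → ℤ[N]/ℤ[N]w → 0`, the first map being the right multiplication by `w`; it is
injective because its cokernel is finite (ranks over `ℤ`). -/
theorem fcl_left (w : MonoidAlgebra ℤ N) (h : FCop N (LQ {w})) : fcl N (LQ {w}) h = 0 := by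
  have hfin := h.1
  obtain ⟨v, hv⟩ : ∃ v, v * w = (Nat.card (LQ {w}) : MonoidAlgebra ℤ N) := by
    have h1 : (Nat.card (LQ {w}) : MonoidAlgebra ℤ N) ∈
        Submodule.span (MonoidAlgebra ℤ N) {w} := by
      rw [← Submodule.Quotient.mk_eq_zero, ← nsmul_one, Submodule.Quotient.mk_smul]
      exact card_nsmul_eq_zero'
    exact Submodule.mem_span_singleton.1 h1
  have hc : (Nat.card (LQ {w}) : ℤ) ≠ 0 := Nat.cast_ne_zero.2 Nat.card_pos.ne'
  have hinj : Function.Injective (LinearMap.toSpanSingleton (MonoidAlgebra ℤ N)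
      (MonoidAlgebra ℤ N) w) := by
    rw [injective_iff_map_eq_zero]
    intro x hx
    have h1 : x * w = 0 := hx
    have hker : LinearMap.ker (LinearMap.mulRight ℤ w) = ⊥ := by
      by_contra h2
      have h2 := LinearMap.det_eq_zero_iff_ker_ne_bot.2 h2
      have h3 : (LinearMap.mulRight ℤ w) ∘ₗ (LinearMap.mulRight ℤ v) =
          (Nat.card (LQ {w}) : ℤ) • (LinearMap.id : MonoidAlgebra ℤ N →ₗ[ℤ] MonoidAlgebra ℤ N) := by
        refine LinearMap.ext fun y => ?_
        rw [LinearMap.comp_apply, LinearMap.mulRight_apply, LinearMap.mulRight_apply,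
          LinearMap.smul_apply, LinearMap.id_apply, mul_assoc, hv, natCast_zsmul, nsmul_eq_mul,
          Nat.cast_comm]
      have h4 := congrArg LinearMap.det h3
      rw [LinearMap.det_comp, h2, zero_mul, LinearMap.det_smul, LinearMap.det_id, mul_one] at h4
      exact pow_ne_zero _ hc h4.symm
    have h5 : x ∈ LinearMap.ker (LinearMap.mulRight ℤ w) := h1
    rw [hker] at h5
    exact h5
  have hex : Function.Exact (LinearMap.toSpanSingleton (MonoidAlgebra ℤ N)
      (MonoidAlgebra ℤ N) w) (Submodule.mkQ (Submodule.span (MonoidAlgebra ℤ N) {w})) := by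
    intro y
    rw [Submodule.mkQ_apply, Submodule.Quotient.mk_eq_zero, Submodule.mem_span_singleton]
    exact Iff.rfl
  exact fcl_regular h _ _ hinj hex (Submodule.mkQ_surjective _)

end Pool.Agent.Lib.MP_0e6cae_nt.DH
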