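import Pool.Agent.Lib.MP_0e6cae_nt.DH.Base
import Pool.Agent.Lib.MP_0e6cae_nt.DH.Left

/-!
The classes of the permutation modules of dihedral groups.
-/

open CategoryTheory Polynomial

namespace Pool.Agent.Lib.MP_0e6cae_nt.DH

open KF

/-- `(p, z - 1) = (∑_{i<p} z^i)` if `z` has finite order prime to `p`. -/
theorem perm_ideal {R : Type} [CommRing R] (z : R) (p n : ℕ) (hzn : z ^ n = 1)
    (hpn : p.Coprime n) :
    (Ideal.span {(p : R), z - 1} : Ideal R) = Ideal.span {∑ i ∈ Finset.range p, z ^ i} := by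
  obtain ⟨w, hw⟩ : z - 1 ∣ (∑ i ∈ Finset.range p, z ^ i) - p := by
    have h1 : (∑ i ∈ Finset.range p, z ^ i) - (p : R) =
        ∑ i ∈ Finset.range p, (z ^ i - 1 ^ i) := by
      rw [Finset.sum_sub_distrib]
      simp
    rw [h1]
    exact Finset.dvd_sum fun i _ => sub_dvd_pow_sub_pow z 1 i
  have hord : p.Coprime (orderOf z) :=
    Nat.Coprime.coprime_dvd_right (orderOf_dvd_of_pow_eq_one hzn) hpn
  obtain ⟨m, hm⟩ := exists_pow_eq_self_of_coprime hord
  have h1 : z - 1 ∈ Ideal.span {∑ i ∈ Finset.range p, z ^ i} := by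
    rw [Ideal.mem_span_singleton]
    have h2 : (∑ i ∈ Finset.range p, z ^ i) ∣ z ^ p - 1 := by
      rw [← geom_sum_mul]
      exact Dvd.intro _ rfl
    have h3 : z ^ p - 1 ∣ z - 1 := by
      have h4 := sub_dvd_pow_sub_pow (z ^ p) 1 m
      rw [hm, one_pow] at h4
      exact h4
    exact h2.trans h3
  apply le_antisymm
  · rw [Ideal.span_le]
    rintro y (rfl | rfl)
    · have h2 : (p : R) = (∑ i ∈ Finset.range p, z ^ i) - (z - 1) * w := by
        rw [← hw]
        ring
      rw [h2]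
      exact sub_mem (Ideal.mem_span_singleton_self _) (Ideal.mul_mem_right _ _ h1)
    · exact h1
  · rw [Ideal.span_le]
    rintro y rfl
    have h2 : (∑ i ∈ Finset.range p, z ^ i) = (p : R) + (z - 1) * w := by
      rw [← hw]
      ring
    rw [SetLike.mem_coe, h2]
    exact add_mem (Ideal.subset_span (Set.mem_insert _ _))
      (Ideal.mul_mem_right _ _ (Ideal.subset_span (Set.mem_insert_of_mem _ rfl)))

/-- The symmetric sum: `z^h (1 + ∑_{1 ≤ j ≤ h} z^j + ∑_{1 ≤ j ≤ h} z^(-j)) = ∑_{i < 2h+1} z^i`. -/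
theorem perm_sum {R : Type} [CommRing R] (z z' : R) (h : z * z' = 1) (k : ℕ) :
    z ^ k * (1 + ∑ j ∈ Finset.Icc 1 k, z ^ j + ∑ j ∈ Finset.Icc 1 k, z' ^ j) =
      ∑ i ∈ Finset.range (2 * k + 1), z ^ i := by
  induction k with
  | zero => simp
  | succ k ih =>
    rw [Finset.sum_Icc_succ_top (by omega), Finset.sum_Icc_succ_top (by omega),
      show 2 * (k + 1) + 1 = (2 * k + 1) + 1 + 1 by ring, Finset.sum_range_succ,
      Finset.sum_range_succ']
    have h1 : ∑ i ∈ Finset.range (2 * k + 1), z ^ (i + 1) =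
        z * ∑ i ∈ Finset.range (2 * k + 1), z ^ i := by
      rw [Finset.mul_sum]
      exact Finset.sum_congr rfl fun i _ => pow_succ' z i
    have h2 : z ^ (k + 1) * z' ^ (k + 1) = 1 := by rw [← mul_pow, h, one_pow]
    rw [h1, ← ih]
    have h3 : z ^ (k + 1) * z ^ (k + 1) = z ^ (2 * k + 1 + 1) := by
      rw [← pow_add]
      congr 1
      ring
    linear_combination h2 + h3

variable {C N : Type} [CommGroup C] [Group N] {f : C →* N} {x : C} {s : N}

/-- `(p, y - 1, s - 1) = (w)` for `y = x^d`, `w = 1 + b (1 + s)`, `b = ∑_{1 ≤ j ≤ (p-1)/2} y^j`.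
(`u = 1 + b + b̄ = ∑_{|j| ≤ (p-1)/2} y^j`, `b̄ = s b s`. One has `(u - b (1 + s)) w = u`, so
`u ∈ (w)`; `u` generates the ideal `(p, y - 1)` of `ℤ[y]`, because `p` is prime to the order of `y`:
so `p`, `y - 1 ∈ (w)`; modulo `y - 1` and `p` one has `2 w = 2 + (p - 1)(1 + s) = 1 - s`.
Conversely `w = p` modulo `y - 1` and `s - 1`.) -/
theorem span_perm [Finite C] [Finite N] (D : Dih f x s) (p : ℕ) (hp : p.Prime)
    (hpn : ¬ p ∣ Nat.card N) (d : ℕ) :
    Submodule.span (MonoidAlgebra ℤ N)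
      ({(p : MonoidAlgebra ℤ N), el (f x) ^ d - 1, el s - 1} : Set (MonoidAlgebra ℤ N)) =
    Submodule.span (MonoidAlgebra ℤ N)
      {1 + (∑ j ∈ Finset.Icc 1 ((p - 1) / 2), el (f x) ^ (d * j)) * (1 + el s)} := by
  rw [D.card] at hpn
  have hpc : p.Coprime (Nat.card C) :=
    (Nat.Prime.coprime_iff_not_dvd hp).2 fun h => hpn (h.mul_left 2)
  have hp2 : p ≠ 2 := by
    rintro rfl
    exact hpn (dvd_mul_right _ _)
  obtain ⟨k, hk⟩ : ∃ k, p = 2 * k + 1 := (hp.eq_two_or_odd'.resolve_left hp2)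
  have hk2 : (p - 1) / 2 = k := by omega
  rw [hk2]
  -- elements of the commutative ring
  let z : MonoidAlgebra ℤ C := el x ^ d
  let z' : MonoidAlgebra ℤ C := el x⁻¹ ^ d
  have hzz : z * z' = 1 := by
    change el x ^ d * el x⁻¹ ^ d = 1
    rw [← mul_pow, el_mul, mul_inv_cancel, el_one, one_pow]
  have hzn : z ^ Nat.card C = 1 := by
    change (el x ^ d) ^ Nat.card C = 1
    rw [← pow_mul, mul_comm, pow_mul, MonoidAlgebra.single_pow, pow_card_eq_one', one_pow]
    exact one_pow d
  let b₀ : MonoidAlgebra ℤ C := ∑ j ∈ Finset.Icc 1 k, z ^ j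
  let b₀' : MonoidAlgebra ℤ C := ∑ j ∈ Finset.Icc 1 k, z' ^ j
  have hsum : z ^ k * (1 + b₀ + b₀') = ∑ i ∈ Finset.range p, z ^ i := by
    rw [hk]
    exact perm_sum z z' hzz k
  have hideal := perm_ideal z p (Nat.card C) hzn hpc
  rw [← hsum] at hideal
  obtain ⟨c₁, hc₁⟩ : ∃ c, c * (z ^ k * (1 + b₀ + b₀')) = (p : MonoidAlgebra ℤ C) := by
    rw [← Ideal.mem_span_singleton', ← hideal]
    exact Ideal.subset_span (Set.mem_insert _ _)
  obtain ⟨c₂, hc₂⟩ : ∃ c, c * (z ^ k * (1 + b₀ + b₀')) = z - 1 := by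
    rw [← Ideal.mem_span_singleton', ← hideal]
    exact Ideal.subset_span (Set.mem_insert_of_mem _ rfl)
  obtain ⟨c₃, hc₃⟩ : ∃ c, b₀ = (k : MonoidAlgebra ℤ C) + c * (z - 1) := by
    obtain ⟨c, hc⟩ : z - 1 ∣ b₀ - k := by
      have h1 : b₀ - (k : MonoidAlgebra ℤ C) = ∑ j ∈ Finset.Icc 1 k, (z ^ j - 1 ^ j) := by
        rw [Finset.sum_sub_distrib]
        simp [b₀]
      rw [h1]
      exact Finset.dvd_sum fun i _ => sub_dvd_pow_sub_pow z 1 i
    exact ⟨c, by rw [mul_comm c, ← hc]; ring⟩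
  -- their images
  have hb : (∑ j ∈ Finset.Icc 1 k, el (f x) ^ (d * j)) = io f b₀ := by
    change _ = io f (∑ j ∈ Finset.Icc 1 k, (el x ^ d) ^ j)
    rw [map_sum]
    refine Finset.sum_congr rfl fun j _ => ?_
    rw [map_pow, map_pow, io_single, ← pow_mul]
  have hy : el (f x) ^ d = io f z := by
    change _ = io f (el x ^ d)
    rw [map_pow, io_single]
  have hsy : el s * io f z = io f z' * el s := by
    have h1 := D.s_mul_io (X ^ d)
    rw [map_pow, map_pow, aeval_X, aeval_X] at h1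
    have h2 : io f z' = el (f x⁻¹) ^ d := by
      change io f (el x⁻¹ ^ d) = _
      rw [map_pow, io_single]
    rw [← hy, h2]
    exact h1
  have hss : el s * el s = 1 := by rw [el_mul, D.sq, el_one]
  have hsy' : el s * io f z' = io f z * el s := by
    have h1 : el s * (el s * io f z) * el s = el s * (io f z' * el s) * el s := by rw [hsy]
    rw [← mul_assoc, hss, one_mul, ← mul_assoc, mul_assoc, hss, mul_one] at h1
    exact h1.symm
  have hsyj : ∀ j : ℕ, el s * io f z ^ j = io f z' ^ j * el s := by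
    intro j
    induction j with
    | zero => rw [pow_zero, pow_zero, mul_one, one_mul]
    | succ j ih => rw [pow_succ, pow_succ, ← mul_assoc, ih, mul_assoc, hsy, mul_assoc]
  have hsb : el s * io f b₀ = io f b₀' * el s := by
    change el s * io f (∑ j ∈ Finset.Icc 1 k, z ^ j) = io f (∑ j ∈ Finset.Icc 1 k, z' ^ j) * el s
    rw [map_sum, map_sum, Finset.mul_sum, Finset.sum_mul]
    refine Finset.sum_congr rfl fun j _ => ?_
    rw [map_pow (io f) z j, map_pow (io f) z' j, hsyj]
  rw [hb, hy]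
  set w : MonoidAlgebra ℤ N := 1 + io f b₀ * (1 + el s) with hw
  have hsS : el s * (1 + el s) = 1 + el s := by rw [mul_add, mul_one, hss, add_comm]
  have hSbS : (1 + el s) * io f b₀ * (1 + el s) = (io f b₀ + io f b₀') * (1 + el s) := by
    rw [add_mul 1 (el s), one_mul, hsb, add_mul, mul_assoc (io f b₀'), hsS, ← add_mul]
  have hcomm : io f b₀ * io f b₀' = io f b₀' * io f b₀ := by
    rw [← map_mul, ← map_mul, mul_comm]
  -- the key identity
  have hkey : (io f (1 + b₀ + b₀') - io f b₀ * (1 + el s)) * w = io f (1 + b₀ + b₀') := by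
    have h1 : io f b₀ * (1 + el s) * w = io f (1 + b₀ + b₀') * io f b₀ * (1 + el s) := by
      rw [hw, mul_add, mul_one, mul_assoc (io f b₀), ← mul_assoc (1 + el s), hSbS, map_add, map_add,
        map_one]
      have h2 : (1 + io f b₀ + io f b₀') * io f b₀ = io f b₀ + io f b₀ * (io f b₀ + io f b₀') := by
        rw [add_mul, add_mul, one_mul, mul_add, hcomm, add_assoc]
      rw [h2, add_mul (io f b₀) (io f b₀ * (io f b₀ + io f b₀')) (1 + el s),
        mul_assoc (io f b₀) (io f b₀ + io f b₀')]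
    rw [sub_mul, h1, hw, mul_add, mul_one, ← mul_assoc, add_sub_cancel_right]
  have hmem : ∀ r : MonoidAlgebra ℤ C, io f (r * (1 + b₀ + b₀')) ∈
      Submodule.span (MonoidAlgebra ℤ N) {w} := by
    intro r
    rw [Submodule.mem_span_singleton]
    refine ⟨io f r * (io f (1 + b₀ + b₀') - io f b₀ * (1 + el s)), ?_⟩
    rw [smul_eq_mul, mul_assoc, hkey, ← map_mul]
  have hpw : (p : MonoidAlgebra ℤ N) ∈ Submodule.span (MonoidAlgebra ℤ N) {w} := by
    have h1 := hmem (c₁ * z ^ k)
    rw [mul_assoc, hc₁, map_natCast] at h1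
    exact h1
  have hyw : io f z - 1 ∈ Submodule.span (MonoidAlgebra ℤ N) {w} := by
    have h1 := hmem (c₂ * z ^ k)
    rw [mul_assoc, hc₂, map_sub, map_one] at h1
    exact h1
  -- `(y - 1)(1 + s)` is a left multiple of `y - 1`
  have hyS : (io f z - 1) * (1 + el s) = (1 - el s * io f z') * (io f z - 1) := by
    have h1 : el s * io f z' * io f z = el s := by
      rw [mul_assoc, ← map_mul, mul_comm z', hzz, map_one, mul_one]
    rw [sub_mul 1 (el s * io f z'), one_mul, mul_sub (el s * io f z'), h1, mul_one, hsy', mul_add,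
      mul_one, sub_mul, one_mul]
    abel
  have hwform : w = (p : MonoidAlgebra ℤ N) + (k : MonoidAlgebra ℤ N) * (el s - 1) +
      io f c₃ * (1 - el s * io f z') * (io f z - 1) := by
    rw [hw, hc₃, map_add, map_mul, map_sub, map_one, map_natCast, add_mul,
      mul_assoc (io f c₃) (io f z - 1), hyS, hk, ← mul_assoc]
    push_cast
    rw [mul_sub (k : MonoidAlgebra ℤ N), mul_add (k : MonoidAlgebra ℤ N), mul_one, two_mul]
    abel
  apply le_antisymm
  · rw [Submodule.span_le]
    rintro r (rfl | rfl | rfl)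
    · exact hpw
    · exact hyw
    · -- `s - 1`
      have h1 : el s - 1 = (1 + el s) * (p : MonoidAlgebra ℤ N) - (2 : MonoidAlgebra ℤ N) * w +
          2 * (io f c₃ * (1 - el s * io f z')) * (io f z - 1) := by
        rw [hwform, hk]
        push_cast
        have h2 : (1 + el s) * (2 * (k : MonoidAlgebra ℤ N) + 1) =
            (2 * (k : MonoidAlgebra ℤ N) + 1) * (1 + el s) := by
          have h3 : ((2 * k + 1 : ℕ) : MonoidAlgebra ℤ N) = 2 * (k : MonoidAlgebra ℤ N) + 1 := by
            push_cast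
            rfl
          rw [← h3]
          exact (Nat.cast_commute _ _).symm
        rw [h2]
        noncomm_ring
      rw [SetLike.mem_coe, h1]
      exact add_mem (sub_mem (Submodule.smul_mem _ _ hpw)
        (Submodule.smul_mem _ (2 : MonoidAlgebra ℤ N) (Submodule.mem_span_singleton_self w)))
        (Submodule.smul_mem _ _ hyw)
  · rw [Submodule.span_singleton_le_iff_mem, hwform]
    refine add_mem (add_mem ?_ ?_) ?_
    · exact Submodule.subset_span (Set.mem_insert _ _)
    · exact Submodule.smul_mem _ (k : MonoidAlgebra ℤ N) (Submodule.subset_span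
        (Set.mem_insert_of_mem _ (Set.mem_insert_of_mem _ rfl)))
    · exact Submodule.smul_mem _ (io f c₃ * (1 - el s * io f z')) (Submodule.subset_span
        (Set.mem_insert_of_mem _ (Set.mem_insert _ _)))

theorem fcl_perm [Finite C] [Finite N] (D : Dih f x s) (p : ℕ) (hp : p.Prime)
    (hpn : ¬ p ∣ Nat.card N) (d : ℕ) (h : FCop N (LQ
      ({(p : MonoidAlgebra ℤ N), el (f x) ^ d - 1, el s - 1} : Set (MonoidAlgebra ℤ N)))) :
    fcl N (LQ ({(p : MonoidAlgebra ℤ N), el (f x) ^ d - 1, el s - 1} :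
      Set (MonoidAlgebra ℤ N))) h = 0 := by
  have h1 := span_perm D p hp hpn d
  have h2 : FCop N (LQ ({1 + (∑ j ∈ Finset.Icc 1 ((p - 1) / 2), el (f x) ^ (d * j)) *
      (1 + el s)} : Set (MonoidAlgebra ℤ N))) := by
    refine LQ.fcop p hp hpn _ ?_
    rw [← h1]
    exact Submodule.subset_span (Set.mem_insert _ _)
  rw [LQ.congr h1 h h2]
  exact fcl_left _ h2

/-- `(p, x - 1) = (∑_{i<p} x^i)`. -/
theorem fcl_rot [Finite C] [Finite N] (D : Dih f x s) (p : ℕ) (hp : p.Prime)
    (hpn : ¬ p ∣ Nat.card N) (h : FCop N (LQ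
      ({(p : MonoidAlgebra ℤ N), el (f x) - 1} : Set (MonoidAlgebra ℤ N)))) :
    fcl N (LQ ({(p : MonoidAlgebra ℤ N), el (f x) - 1} : Set (MonoidAlgebra ℤ N))) h = 0 := by
  have hpc : p.Coprime (Nat.card C) := by
    rw [D.card] at hpn
    exact (Nat.Prime.coprime_iff_not_dvd hp).2 fun h => hpn (h.mul_left 2)
  have hzn : (el x : MonoidAlgebra ℤ C) ^ Nat.card C = 1 := by
    rw [MonoidAlgebra.single_pow, pow_card_eq_one', one_pow]
    rfl
  have hideal := perm_ideal (el x) p (Nat.card C) hzn hpc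
  have h1 : Submodule.span (MonoidAlgebra ℤ N)
      ({(p : MonoidAlgebra ℤ N), el (f x) - 1} : Set (MonoidAlgebra ℤ N)) =
      Submodule.span (MonoidAlgebra ℤ N) {io f (∑ i ∈ Finset.range p, el x ^ i)} := by
    have h2 : ∀ r ∈ (Ideal.span {∑ i ∈ Finset.range p, el x ^ i} : Ideal (MonoidAlgebra ℤ C)),
        io f r ∈ Submodule.span (MonoidAlgebra ℤ N) {io f (∑ i ∈ Finset.range p, el x ^ i)} := by
      intro r hr
      obtain ⟨c, rfl⟩ := Ideal.mem_span_singleton'.1 hr
      rw [map_mul]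
      exact Submodule.smul_mem _ (io f c) (Submodule.mem_span_singleton_self _)
    apply le_antisymm
    · rw [Submodule.span_le]
      rintro r (rfl | rfl)
      · have h3 := h2 (p : MonoidAlgebra ℤ C) (by
          rw [← hideal]
          exact Ideal.subset_span (Set.mem_insert _ _))
        rw [map_natCast] at h3
        exact h3
      · have h3 := h2 (el x - 1) (by
          rw [← hideal]
          exact Ideal.subset_span (Set.mem_insert_of_mem _ rfl))
        rw [map_sub, map_one, io_single] at h3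
        exact h3
    · rw [Submodule.span_singleton_le_iff_mem]
      have h3 : (∑ i ∈ Finset.range p, el x ^ i) ∈
          (Ideal.span {(p : MonoidAlgebra ℤ C), el x - 1} : Ideal (MonoidAlgebra ℤ C)) := by
        rw [hideal]
        exact Ideal.mem_span_singleton_self _
      obtain ⟨a, c, hac⟩ := Ideal.mem_span_pair.1 h3
      rw [← hac, map_add, map_mul, map_mul, map_natCast, map_sub, map_one, io_single]
      exact add_mem (Submodule.smul_mem _ (io f a) (Submodule.subset_span (Set.mem_insert _ _)))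
        (Submodule.smul_mem _ (io f c) (Submodule.subset_span (Set.mem_insert_of_mem _ rfl)))
  have h2 : FCop N (LQ ({io f (∑ i ∈ Finset.range p, el x ^ i)} : Set (MonoidAlgebra ℤ N))) := by
    refine LQ.fcop p hp hpn _ ?_
    rw [← h1]
    exact Submodule.subset_span (Set.mem_insert _ _)
  rw [LQ.congr h1 h h2]
  exact fcl_left _ h2

end Pool.Agent.Lib.MP_0e6cae_nt.DH
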