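import Pool.Agent.Lib.MP_0e6cae_nt.DH.PMul
import Pool.Agent.Lib.MP_0e6cae_nt.DH.Perm

/-!
The classes of the modules `ℤ[N]/(p, Φ_d(x), s - 1)`, `d ≥ 3`.
-/

open CategoryTheory Polynomial

namespace Pool.Agent.Lib.MP_0e6cae_nt.DH

open KF SW

variable {C N : Type} [CommGroup C] [Group N] {f : C →* N} {x : C} {s : N}

/-- (`fcl_perm`.) -/
theorem pcl_pow [Finite C] [Finite N] (D : Dih f x s) (p : ℕ) (hp : p.Prime)
    (hpn : ¬ p ∣ Nat.card N) (d : ℕ) : pcl f x s p hp hpn (X ^ d - 1) = 0 := by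
  have h1 : ({(p : MonoidAlgebra ℤ N), aeval (el (f x)) (X ^ d - 1 : ℤ[X]), el s - 1} :
      Set (MonoidAlgebra ℤ N)) = {(p : MonoidAlgebra ℤ N), el (f x) ^ d - 1, el s - 1} := by
    rw [map_sub, map_pow, aeval_X, map_one]
  have h2 : FCop N (LQ ({(p : MonoidAlgebra ℤ N), el (f x) ^ d - 1, el s - 1} :
      Set (MonoidAlgebra ℤ N))) :=
    LQ.fcop p hp hpn _ (Submodule.subset_span (Set.mem_insert _ _))
  unfold pcl
  rw [LQ.congr (by rw [h1]) (PM.fcop f x s p hp hpn (X ^ d - 1)) h2]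
  exact fcl_perm D p hp hpn d h2

private theorem pcyc_pal [Finite C] (t : Finset ℕ) (ht : t ⊆ (Nat.card C).divisors) (B : ℤ[X])
    (hB : Pal x B) : Pal x ((∏ e ∈ t, cyclotomic e ℤ) * B) := by
  classical
  induction t using Finset.induction_on with
  | empty => rwa [Finset.prod_empty, one_mul]
  | insert a t ha ih =>
    rw [Finset.prod_insert ha, mul_assoc]
    exact (pal_cyclotomic x a (Nat.dvd_of_mem_divisors (ht (Finset.mem_insert_self a t)))).mul
      (ih ((Finset.subset_insert a t).trans ht))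

private theorem pcyc_prod [Finite C] [Finite N] (D : Dih f x s) (p : ℕ) (hp : p.Prime)
    (hpn : ¬ p ∣ Nat.card N) (t : Finset ℕ) (ht : t ⊆ (Nat.card C).divisors)
    (h3 : ∀ e ∈ t, 3 ≤ e) (B : ℤ[X]) (hB : Pal x B)
    (hdvd : (∏ e ∈ t, cyclotomic e ℤ) * B ∣ X ^ Nat.card C - 1) :
    pcl f x s p hp hpn ((∏ e ∈ t, cyclotomic e ℤ) * B) =
      ∑ e ∈ t, pcl f x s p hp hpn (cyclotomic e ℤ) + pcl f x s p hp hpn B := by
  classical
  induction t using Finset.induction_on with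
  | empty => rw [Finset.prod_empty, one_mul, Finset.sum_empty, zero_add]
  | insert a t ha ih =>
    rw [Finset.prod_insert ha, mul_assoc] at hdvd ⊢
    have ht' := (Finset.subset_insert a t).trans ht
    rw [Finset.sum_insert ha, pcl_mul D p hp hpn a (h3 a (Finset.mem_insert_self a t))
      (Nat.dvd_of_mem_divisors (ht (Finset.mem_insert_self a t))) _ (pcyc_pal t ht' B hB) hdvd,
      ih ht' (fun e he => h3 e (Finset.mem_insert_of_mem he)) ((dvd_mul_left _ _).trans hdvd),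
      add_assoc]

private theorem pcyc_low (d : ℕ) (hd : 0 < d) :
    ∃ n : ℕ, 0 < n ∧ d.divisors.filter (fun e => ¬ 3 ≤ e) = n.divisors := by
  rcases Nat.even_or_odd d with he | ho
  · refine ⟨2, by norm_num, ?_⟩
    ext e
    rw [Finset.mem_filter, Nat.mem_divisors, Nat.mem_divisors]
    constructor
    · rintro ⟨⟨h1, h2⟩, h3⟩
      have h4 : e ≠ 0 := by
        rintro rfl
        exact h2 (zero_dvd_iff.1 h1)
      have h5 : e = 1 ∨ e = 2 := by omega
      rcases h5 with rfl | rfl <;> norm_num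
    · rintro ⟨h1, -⟩
      refine ⟨⟨h1.trans he.two_dvd, hd.ne'⟩, ?_⟩
      have := Nat.le_of_dvd (by norm_num) h1
      omega
  · refine ⟨1, by norm_num, ?_⟩
    ext e
    rw [Finset.mem_filter, Nat.mem_divisors, Nat.mem_divisors]
    constructor
    · rintro ⟨⟨h1, h2⟩, h3⟩
      have h4 : e ≠ 0 := by
        rintro rfl
        exact h2 (zero_dvd_iff.1 h1)
      have h5 : e ≠ 2 := by
        rintro rfl
        rcases ho with ⟨k, hk⟩
        omega
      have h6 : e = 1 := by omega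
      rw [h6]
      norm_num
    · rintro ⟨h1, -⟩
      have h2 : e = 1 := Nat.dvd_one.1 h1
      rw [h2]
      exact ⟨⟨one_dvd _, hd.ne'⟩, by norm_num⟩

/-- (Strong induction on `d`: `X^d - 1` is the product of `X - 1` (`d` odd) or `X^2 - 1` (`d` even)
and of the `Φ_e`, `e ∣ d`, `e ≥ 3`; `pcl_mul`, `pcl_pow`.) -/
theorem pcl_cyclotomic [Finite C] [Finite N] (D : Dih f x s) (p : ℕ) (hp : p.Prime)
    (hpn : ¬ p ∣ Nat.card N) (d : ℕ) (hd : d ∣ Nat.card C) (h3 : 3 ≤ d) :
    pcl f x s p hp hpn (cyclotomic d ℤ) = 0 := by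
  induction d using Nat.strong_induction_on with
  | _ d ih =>
    have hn0 : Nat.card C ≠ 0 := Nat.card_pos.ne'
    have hd0 : 0 < d := by omega
    obtain ⟨n, hn, hlow⟩ := pcyc_low d hd0
    have h1 : d.divisors ⊆ (Nat.card C).divisors := Nat.divisors_subset_of_dvd hn0 hd
    have h2 : (∏ e ∈ d.divisors.filter (fun e => 3 ≤ e), cyclotomic e ℤ) * (X ^ n - 1)
        = X ^ d - 1 := by
      rw [← prod_cyclotomic_eq_X_pow_sub_one hn, ← hlow, Finset.prod_filter_mul_prod_filter_not,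
        prod_cyclotomic_eq_X_pow_sub_one hd0]
    have h4 : (X ^ d - 1 : ℤ[X]) ∣ X ^ Nat.card C - 1 := by
      rw [← prod_cyclotomic_eq_X_pow_sub_one hd0, ← prod_cyclotomic_eq_X_pow_sub_one Nat.card_pos]
      exact Finset.prod_dvd_prod_of_subset _ _ _ h1
    have h5 := pcyc_prod D p hp hpn (d.divisors.filter (fun e => 3 ≤ e))
      ((Finset.filter_subset _ _).trans h1) (fun e he => (Finset.mem_filter.1 he).2)
      (X ^ n - 1) (pal_pow x n) (by rw [h2]; exact h4)
    rw [h2, pcl_pow D, pcl_pow D, add_zero, Finset.sum_eq_single_of_mem d] at h5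
    · exact h5.symm
    · exact Finset.mem_filter.2 ⟨Nat.mem_divisors_self d hd0.ne', h3⟩
    · intro e he hed
      rw [Finset.mem_filter, Nat.mem_divisors] at he
      exact ih e (lt_of_le_of_ne (Nat.le_of_dvd hd0 he.1.1) hed) (he.1.1.trans hd) he.2

end Pool.Agent.Lib.MP_0e6cae_nt.DH
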