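import Pool.Agent.Lib.MP_0e6cae_nt.DH.Pal
import Pool.Agent.Lib.MP_0e6cae_nt.KF.CycB

/-!
Exact sequences of the modules `ℤ[N]/(p, A(x), s - 1)`.
-/

open CategoryTheory Polynomial

namespace Pool.Agent.Lib.MP_0e6cae_nt.DH

open KF SW

/-- The cyclotomic polynomials are reciprocal. -/
theorem cyclotomic_reverse (e : ℕ) (he : 1 < e) :
    (cyclotomic e ℤ).reverse = cyclotomic e ℤ := by
  have hζ := Complex.isPrimitiveRoot_exp e (by omega)
  set ζ := Complex.exp (2 * Real.pi * Complex.I / e) with hζd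
  have hζ0 : ζ ≠ 0 := Complex.exp_ne_zero _
  let inv : Invertible ζ⁻¹ := invertibleOfNonzero (inv_ne_zero hζ0)
  have hinv : ⅟ζ⁻¹ = ζ := by
    rw [invOf_eq_inv, inv_inv]
  have h0 : (cyclotomic e ℤ).coeff 0 = 1 := cyclotomic_coeff_zero ℤ he
  have htd : (cyclotomic e ℤ).natTrailingDegree = 0 := by
    rw [natTrailingDegree_eq_zero]
    right
    rw [h0]
    exact one_ne_zero
  have hdeg : (cyclotomic e ℤ).reverse.natDegree = (cyclotomic e ℤ).natDegree := by
    rw [reverse_natDegree, htd, Nat.sub_zero]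
  have hmon : (cyclotomic e ℤ).reverse.Monic := by
    rw [Monic, reverse_leadingCoeff, trailingCoeff, htd, h0]
  have hdvd : cyclotomic e ℤ ∣ (cyclotomic e ℤ).reverse := by
    rw [cyclotomic_eq_minpoly hζ (by omega)]
    refine minpoly.isIntegrallyClosed_dvd (hζ.isIntegral (by omega)) ?_
    rw [← cyclotomic_eq_minpoly hζ (by omega)]
    have h1 := (eval₂_reverse_eq_zero_iff (algebraMap ℤ ℂ) ζ⁻¹ (cyclotomic e ℤ)).2 (by
      have h2 := hζ.inv
      rw [← aeval_def, cyclotomic_eq_minpoly h2 (by omega)]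
      exact minpoly.aeval ℤ _)
    rw [hinv] at h1
    exact h1
  exact (eq_of_monic_of_dvd_of_natDegree_le (cyclotomic.monic e ℤ) hmon hdvd hdeg.le)

variable {C N : Type} [CommGroup C] [Group N] {f : C →* N} {x : C} {s : N}

theorem cyclotomic_inv (x : C) (e : ℕ) (he : 1 < e) :
    aeval (el x⁻¹) (cyclotomic e ℤ) * el x ^ e.totient = aeval (el x) (cyclotomic e ℤ) := by
  let inv : Invertible (el x) :=
    ⟨el x⁻¹, by rw [el_mul, inv_mul_cancel, el_one], by rw [el_mul, mul_inv_cancel, el_one]⟩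
  have h1 := eval₂_reverse_mul_pow (algebraMap ℤ (MonoidAlgebra ℤ C)) (el x) (cyclotomic e ℤ)
  rw [cyclotomic_reverse e he, natDegree_cyclotomic] at h1
  exact h1

/-- An element `a` of `ℤ[C]`, associated to `Φ_e(x)`, `e ≥ 3`, which commutes with `s`:
`a = x^(-φ(e)/2) Φ_e(x)`. -/
theorem exists_sym [Finite C] [Finite N] (D : Dih f x s) (e : ℕ) (he : 3 ≤ e) :
    ∃ (a u v : MonoidAlgebra ℤ C), u * v = 1 ∧ a = u * aeval (el x) (cyclotomic e ℤ) ∧
      el s * io f a = io f a * el s := by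
  obtain ⟨m, hm⟩ := Nat.totient_even (n := e) (by omega)
  have h1 := cyclotomic_inv x e (by omega)
  have hx1 : ∀ k : ℕ, el x⁻¹ ^ k * el x ^ k = 1 := by
    intro k
    rw [← mul_pow, el_mul, inv_mul_cancel, el_one, one_pow]
  refine ⟨el x⁻¹ ^ m * aeval (el x) (cyclotomic e ℤ), el x⁻¹ ^ m, el x ^ m, hx1 m, rfl, ?_⟩
  have h2 : el x ^ m * aeval (el x⁻¹) (cyclotomic e ℤ) =
      el x⁻¹ ^ m * aeval (el x) (cyclotomic e ℤ) := by
    rw [← h1, hm, pow_add]
    linear_combination (-(el x ^ m * aeval (el x⁻¹) (cyclotomic e ℤ))) * hx1 m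
  have h3 : ∀ k : ℕ, el s * el (f x⁻¹) ^ k = el (f x) ^ k * el s := by
    intro k
    induction k with
    | zero => rw [pow_zero, pow_zero, mul_one, one_mul]
    | succ k ih =>
      rw [pow_succ, pow_succ, ← mul_assoc, ih, mul_assoc, D.s_mul_el, inv_inv, mul_assoc]
  have h4 : io f (el x⁻¹ ^ m) = el (f x⁻¹) ^ m := by rw [map_pow, io_single]
  have h5 : io f (el x ^ m) = el (f x) ^ m := by rw [map_pow, io_single]
  have h6 : io f (aeval (el x⁻¹) (cyclotomic e ℤ)) = aeval (el (f x⁻¹)) (cyclotomic e ℤ) :=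
    io_aeval f x⁻¹ _
  have h7 : el s * io f (el x⁻¹ ^ m * aeval (el x) (cyclotomic e ℤ)) =
      io f (el x ^ m * aeval (el x⁻¹) (cyclotomic e ℤ)) * el s := by
    rw [map_mul, map_mul, h4, h5, h6, io_aeval, ← mul_assoc, h3, mul_assoc, D.s_mul_io, mul_assoc]
  rw [h7, h2]

/-- `0 → ℤ[N]/(p, B(x), s - 1) → ℤ[N]/(p, Φ_e(x) B(x), s - 1) → ℤ[N]/(p, Φ_e(x), s - 1) → 0`, the
first map being the right multiplication by `a` of `exists_sym`. (Surjectivity and the kernel of
the second map are easy; for the injectivity of the first write the elements as classes of `io f r`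
(`pm_surj`), use `pm_mem` and `KF.cycB_inj`.) -/
theorem pcl_mul [Finite C] [Finite N] (D : Dih f x s) (p : ℕ) (hp : p.Prime)
    (hpn : ¬ p ∣ Nat.card N) (e : ℕ) (he : 3 ≤ e) (hec : e ∣ Nat.card C) (B : ℤ[X])
    (hB : Pal x B) (hAB : cyclotomic e ℤ * B ∣ X ^ Nat.card C - 1) :
    pcl f x s p hp hpn (cyclotomic e ℤ * B) =
      pcl f x s p hp hpn (cyclotomic e ℤ) + pcl f x s p hp hpn B := by
  obtain ⟨a, u, v, huv, ha, hsa⟩ := exists_sym D e he
  have hA : Pal x (cyclotomic e ℤ) := pal_cyclotomic x e hec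
  have hABp : Pal x (cyclotomic e ℤ * B) := hA.mul hB
  set A : ℤ[X] := cyclotomic e ℤ with hAdef
  let IA : Submodule (MonoidAlgebra ℤ N) (MonoidAlgebra ℤ N) := Submodule.span (MonoidAlgebra ℤ N)
    ({(p : MonoidAlgebra ℤ N), aeval (el (f x)) A, el s - 1} : Set (MonoidAlgebra ℤ N))
  let IB : Submodule (MonoidAlgebra ℤ N) (MonoidAlgebra ℤ N) := Submodule.span (MonoidAlgebra ℤ N)
    ({(p : MonoidAlgebra ℤ N), aeval (el (f x)) B, el s - 1} : Set (MonoidAlgebra ℤ N))
  let IAB : Submodule (MonoidAlgebra ℤ N) (MonoidAlgebra ℤ N) :=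
    Submodule.span (MonoidAlgebra ℤ N)
      ({(p : MonoidAlgebra ℤ N), aeval (el (f x)) (A * B), el s - 1} : Set (MonoidAlgebra ℤ N))
  have h1 : IB ≤ Submodule.comap (LinearMap.toSpanSingleton (MonoidAlgebra ℤ N)
      (MonoidAlgebra ℤ N) (io f a)) IAB := by
    rw [Submodule.span_le]
    rintro y (rfl | rfl | rfl)
    · change (p : MonoidAlgebra ℤ N) * io f a ∈ IAB
      rw [Nat.cast_comm]
      exact Submodule.smul_mem _ (io f a) (Submodule.subset_span (Set.mem_insert _ _))
    · change aeval (el (f x)) B * io f a ∈ IAB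
      have h2 : aeval (el (f x)) B * io f a = io f u * aeval (el (f x)) (A * B) := by
        rw [← io_aeval f x B, ← io_aeval f x (A * B), ← map_mul (io f), ← map_mul (io f), ha,
          map_mul (aeval (el x))]
        congr 1
        ring
      rw [h2]
      exact Submodule.smul_mem _ (io f u)
        (Submodule.subset_span (Set.mem_insert_of_mem _ (Set.mem_insert _ _)))
    · change (el s - 1) * io f a ∈ IAB
      rw [sub_mul, one_mul, hsa, ← mul_sub_one]
      exact Submodule.smul_mem _ (io f a)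
        (Submodule.subset_span (Set.mem_insert_of_mem _ (Set.mem_insert_of_mem _ rfl)))
  have h2 : IAB ≤ IA := by
    rw [Submodule.span_le]
    rintro y (rfl | rfl | rfl)
    · exact Submodule.subset_span (Set.mem_insert _ _)
    · have h3 : aeval (el (f x)) (A * B) = aeval (el (f x)) B * aeval (el (f x)) A := by
        rw [mul_comm, map_mul]
      rw [SetLike.mem_coe, h3]
      exact Submodule.smul_mem _ (aeval (el (f x)) B)
        (Submodule.subset_span (Set.mem_insert_of_mem _ (Set.mem_insert _ _)))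
    · exact Submodule.subset_span (Set.mem_insert_of_mem _ (Set.mem_insert_of_mem _ rfl))
  let F : (MonoidAlgebra ℤ N ⧸ IB) →ₗ[MonoidAlgebra ℤ N] (MonoidAlgebra ℤ N ⧸ IAB) :=
    Submodule.mapQ IB IAB (LinearMap.toSpanSingleton (MonoidAlgebra ℤ N) (MonoidAlgebra ℤ N)
      (io f a)) h1
  let G : (MonoidAlgebra ℤ N ⧸ IAB) →ₗ[MonoidAlgebra ℤ N] (MonoidAlgebra ℤ N ⧸ IA) :=
    Submodule.factor h2
  have hF : ∀ y : MonoidAlgebra ℤ N, F (Submodule.Quotient.mk y) =
      (Submodule.Quotient.mk (y * io f a) : MonoidAlgebra ℤ N ⧸ IAB) := fun y => rfl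
  have hG : ∀ y : MonoidAlgebra ℤ N, G (Submodule.Quotient.mk y) =
      (Submodule.Quotient.mk y : MonoidAlgebra ℤ N ⧸ IA) := fun y => rfl
  have hFi : Function.Injective F := by
    rw [injective_iff_map_eq_zero]
    intro y hy
    obtain ⟨r, rfl⟩ := pm_surj D p B y
    have h3 : F (Submodule.Quotient.mk (io f r)) = 0 := hy
    rw [hF, Submodule.Quotient.mk_eq_zero, ← map_mul] at h3
    have h4 := (pm_mem D p (A * B) hABp (r * a)).1 h3
    have h5 : aeval (el x) A * (r * u) = r * a := by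
      rw [ha]
      ring
    rw [← h5] at h4
    have h6 := cycB_inj x D.gen p hp A B hAB (r * u) h4
    have h7 : r = v * (r * u) := by
      linear_combination (-r) * huv
    refine (Submodule.Quotient.mk_eq_zero _).2 ((pm_mem D p B hB r).2 ?_)
    rw [h7]
    exact Ideal.mul_mem_left _ v h6
  have hGs : Function.Surjective G := by
    intro y
    obtain ⟨y, rfl⟩ := Submodule.Quotient.mk_surjective _ y
    exact ⟨Submodule.Quotient.mk y, rfl⟩
  have hFG : Function.Exact F G := by
    intro y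
    constructor
    · intro hy
      obtain ⟨r, rfl⟩ := pm_surj D p (A * B) y
      have h3 : G (Submodule.Quotient.mk (io f r)) = 0 := hy
      rw [hG, Submodule.Quotient.mk_eq_zero] at h3
      obtain ⟨α, β, hr⟩ := Ideal.mem_span_pair.1 ((pm_mem D p A hA r).1 h3)
      refine ⟨Submodule.Quotient.mk (io f (β * v)), ?_⟩
      rw [hF, ← map_mul]
      refine (Submodule.Quotient.eq _).2 ?_
      have h4 : io f (β * v * a) - io f r = io f (-α) * (p : MonoidAlgebra ℤ N) := by
        have h5 : β * v * a - r = (-α) * (p : MonoidAlgebra ℤ C) := by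
          rw [← hr, ha]
          linear_combination (β * aeval (el x) A) * huv
        rw [← map_sub, h5, map_mul, map_natCast]
      rw [h4]
      exact Submodule.smul_mem _ (io f (-α)) (Submodule.subset_span (Set.mem_insert _ _))
    · rintro ⟨z, hz⟩
      obtain ⟨z, rfl⟩ := Submodule.Quotient.mk_surjective _ z
      rw [← hz, hF]
      refine (Submodule.Quotient.mk_eq_zero _).2 ?_
      have h3 : z * io f a = (z * io f u) * aeval (el (f x)) A := by
        rw [ha, map_mul, io_aeval, mul_assoc]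
      rw [h3]
      exact Submodule.smul_mem _ (z * io f u)
        (Submodule.subset_span (Set.mem_insert_of_mem _ (Set.mem_insert _ _)))
  unfold pcl
  rw [add_comm]
  exact fcl_exact _ _ _ F G hFi hFG hGs

end Pool.Agent.Lib.MP_0e6cae_nt.DH
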