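import Pool.Agent.Lib.MP_0e6cae_nt.DH.Base
import Pool.Agent.Lib.MP_0e6cae_nt.DH.Left

/-!
The modules `ℤ[N]/(p, A(x), s - 1)`.
-/

open CategoryTheory Polynomial

namespace Pool.Agent.Lib.MP_0e6cae_nt.DH

open KF SW

/-- `A(x⁻¹)` is a multiple of `A(x)` in `ℤ[C]`. -/
def Pal {C : Type} [CommGroup C] (x : C) (A : ℤ[X]) : Prop :=
  aeval (el x⁻¹) A ∈ (Ideal.span {aeval (el x) A} : Ideal (MonoidAlgebra ℤ C))

theorem Pal.mul {C : Type} [CommGroup C] {x : C} {A B : ℤ[X]} (hA : Pal x A) (hB : Pal x B) :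
    Pal x (A * B) := by
  unfold Pal at hA hB ⊢
  rw [Ideal.mem_span_singleton] at hA hB ⊢
  rw [map_mul, map_mul]
  exact mul_dvd_mul hA hB

theorem pal_pow {C : Type} [CommGroup C] (x : C) (d : ℕ) : Pal x (X ^ d - 1) := by
  unfold Pal
  rw [Ideal.mem_span_singleton]
  refine ⟨-(el x⁻¹ ^ d), ?_⟩
  rw [map_sub, map_sub, map_pow, map_pow, aeval_X, aeval_X, map_one, map_one]
  have h1 : el x ^ d * el x⁻¹ ^ d = 1 := by
    rw [← mul_pow, el_mul, mul_inv_cancel, el_one, one_pow]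
  linear_combination h1

/-- (`Φ_1 = X - 1`; for `d ≥ 2` the polynomial `Φ_d` is reciprocal, `X^φ(d) Φ_d(1/X) = Φ_d(X)`;
or: `Φ_d(X)` divides `Φ_d(X^b)` for `b ≡ -1` modulo the order of `x`, see
`KF.sub_cyclotomic_dvd`.) -/
theorem pal_cyclotomic {C : Type} [CommGroup C] [Finite C] (x : C) (d : ℕ)
    (hd : d ∣ Nat.card C) : Pal x (cyclotomic d ℤ) := by
  have hn : 0 < Nat.card C := Nat.card_pos
  have hd0 : 0 < d := Nat.pos_of_dvd_of_pos hd hn
  obtain ⟨b, hb⟩ : ∃ b, b + 1 = 2 * Nat.card C := ⟨2 * Nat.card C - 1, by omega⟩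
  have hbd : b.Coprime d := by
    have h1 : d ∣ b + 1 := by
      rw [hb]
      exact hd.mul_left 2
    refine Nat.coprime_of_dvd fun q hq hqb hqd => ?_
    have h2 : q ∣ 1 := (Nat.dvd_add_right hqb).1 (hqd.trans h1)
    exact hq.one_lt.ne' (Nat.dvd_one.1 h2)
  have hx : x ^ b = x⁻¹ := by
    rw [eq_inv_iff_mul_eq_one, ← pow_succ, hb, mul_comm, pow_mul, pow_card_eq_one', one_pow]
  unfold Pal
  rw [Ideal.mem_span_singleton]
  have h3 := map_dvd (aeval (el x)) (sub_cyclotomic_dvd d b hd0 hbd)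
  rw [expand_aeval, MonoidAlgebra.single_pow, one_pow, hx] at h3
  exact h3

variable {C N : Type} [CommGroup C] [Group N]

/-- The module `ℤ[N]/(p, A(x), s - 1)`. -/
abbrev PM (f : C →* N) (x : C) (s : N) (p : ℕ) (A : ℤ[X]) : Type :=
  LQ ({(p : MonoidAlgebra ℤ N), aeval (el (f x)) A, el s - 1} : Set (MonoidAlgebra ℤ N))

theorem PM.fcop [Finite N] (f : C →* N) (x : C) (s : N) (p : ℕ) (hp : p.Prime)
    (hpn : ¬ p ∣ Nat.card N) (A : ℤ[X]) : FCop N (PM f x s p A) :=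
  LQ.fcop p hp hpn _ (Submodule.subset_span (Set.mem_insert _ _))

/-- The class of `ℤ[N]/(p, A(x), s - 1)`. -/
noncomputable def pcl [Finite N] (f : C →* N) (x : C) (s : N) (p : ℕ) (hp : p.Prime)
    (hpn : ¬ p ∣ Nat.card N) (A : ℤ[X]) : K0 (MonoidAlgebra ℤ N) :=
  fcl N (PM f x s p A) (PM.fcop f x s p hp hpn A)

variable {f : C →* N} {x : C} {s : N}

/-- (The projection `ρ : ℤ[N] → ℤ[C]`, `a + b s ↦ a + b`, maps the left ideal
`(p, A(x), s - 1)` to the ideal `(p, A(x))`, because `s A(x) = A(x⁻¹) s`.) -/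
theorem pm_mem (D : Dih f x s) (p : ℕ) (A : ℤ[X]) (hA : Pal x A) (r : MonoidAlgebra ℤ C) :
    io f r ∈ Submodule.span (MonoidAlgebra ℤ N)
      ({(p : MonoidAlgebra ℤ N), aeval (el (f x)) A, el s - 1} : Set (MonoidAlgebra ℤ N)) ↔
    r ∈ (Ideal.span {(p : MonoidAlgebra ℤ C), aeval (el x) A} : Ideal (MonoidAlgebra ℤ C)) := by
  constructor
  · intro h
    obtain ⟨α, β, δ, h1⟩ := Submodule.mem_span_triple.1 h
    obtain ⟨a₁, a₂, rfl⟩ := D.exists_pair α
    obtain ⟨b₁, b₂, rfl⟩ := D.exists_pair β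
    obtain ⟨d₁, d₂, rfl⟩ := D.exists_pair δ
    have hss : el s * el s = 1 := by rw [el_mul, D.sq, el_one]
    have e1 : (io f a₁ + io f a₂ * el s) * (p : MonoidAlgebra ℤ N) =
        io f (a₁ * p) + io f (a₂ * p) * el s := by
      rw [map_mul, map_mul, map_natCast, add_mul, mul_assoc, mul_assoc, Nat.cast_comm]
    have e2 : (io f b₁ + io f b₂ * el s) * aeval (el (f x)) A =
        io f (b₁ * aeval (el x) A) + io f (b₂ * aeval (el x⁻¹) A) * el s := by
      rw [map_mul, map_mul, add_mul, mul_assoc, D.s_mul_io, io_aeval, io_aeval, mul_assoc]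
    have e3 : (io f d₁ + io f d₂ * el s) * (el s - 1) =
        io f (d₂ - d₁) + io f (d₁ - d₂) * el s := by
      rw [map_sub, map_sub, sub_mul, mul_sub, mul_one, add_mul, mul_assoc, hss, mul_one]
      abel
    rw [smul_eq_mul, smul_eq_mul, smul_eq_mul, e1, e2, e3] at h1
    have h2 : io f (a₁ * p + b₁ * aeval (el x) A + (d₂ - d₁) - r) +
        io f (a₂ * p + b₂ * aeval (el x⁻¹) A + (d₁ - d₂)) * el s = 0 := by
      rw [map_sub, ← h1, map_add, map_add, map_add, map_add, add_mul, add_mul]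
      abel
    obtain ⟨h3, h4⟩ := D.pair_inj _ _ h2
    obtain ⟨c, hc⟩ := Ideal.mem_span_singleton'.1 hA
    rw [Ideal.mem_span_pair]
    refine ⟨a₁ + a₂, b₁ + b₂ * c, ?_⟩
    linear_combination h3 + h4 + b₂ * hc
  · intro h
    obtain ⟨a, b, rfl⟩ := Ideal.mem_span_pair.1 h
    rw [map_add, map_mul, map_mul, map_natCast, io_aeval]
    exact add_mem (Submodule.smul_mem _ (io f a) (Submodule.subset_span (Set.mem_insert _ _)))
      (Submodule.smul_mem _ (io f b)
        (Submodule.subset_span (Set.mem_insert_of_mem _ (Set.mem_insert _ _))))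

theorem pm_surj (D : Dih f x s) (p : ℕ) (A : ℤ[X]) (y : PM f x s p A) :
    ∃ r : MonoidAlgebra ℤ C, y = Submodule.Quotient.mk (io f r) := by
  obtain ⟨t, rfl⟩ := Submodule.Quotient.mk_surjective _ y
  obtain ⟨a, b, rfl⟩ := D.exists_pair t
  refine ⟨a + b, (Submodule.Quotient.eq _).2 ?_⟩
  have h1 : io f a + io f b * el s - io f (a + b) = io f b * (el s - 1) := by
    rw [map_add, mul_sub, mul_one]
    abel
  rw [h1]
  exact Submodule.smul_mem _ (io f b)
    (Submodule.subset_span (Set.mem_insert_of_mem _ (Set.mem_insert_of_mem _ rfl)))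

theorem pm_res (D : Dih f x s) (p : ℕ) (A : ℤ[X]) (hA : Pal x A) :
    Nonempty (ResF f (PM f x s p A) ≃ₗ[MonoidAlgebra ℤ C] QM x p A) := by
  let L : MonoidAlgebra ℤ C →ₗ[MonoidAlgebra ℤ C] ResF f (PM f x s p A) :=
    LinearMap.toSpanSingleton (MonoidAlgebra ℤ C) (ResF f (PM f x s p A))
      (ResF.of f (PM f x s p A) (Submodule.Quotient.mk 1))
  have hL : ∀ r, L r = ResF.of f (PM f x s p A) (Submodule.Quotient.mk (io f r)) := by
    intro r
    change r • ResF.of f (PM f x s p A) (Submodule.Quotient.mk 1) = _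
    rw [ResF.smul_of, ← Submodule.Quotient.mk_smul, smul_eq_mul, mul_one]
  have hsurj : Function.Surjective L := by
    intro y
    obtain ⟨r, hr⟩ := pm_surj D p A ((ResF.of f (PM f x s p A)).symm y)
    refine ⟨r, ?_⟩
    rw [hL, ← hr, AddEquiv.apply_symm_apply]
  have hker : LinearMap.ker L = (Ideal.span {(p : MonoidAlgebra ℤ C), aeval (el x) A} :
      Ideal (MonoidAlgebra ℤ C)) := by
    ext r
    rw [LinearMap.mem_ker, hL, ← pm_mem D p A hA r]
    exact Submodule.Quotient.mk_eq_zero _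
  exact ⟨(L.quotKerEquivOfSurjective hsurj).symm.trans (Submodule.quotEquivOfEq _ _ hker)⟩

end Pool.Agent.Lib.MP_0e6cae_nt.DH
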