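import Pool.Agent.Lib.MP_0e6cae_nt.DH.Perm
import Pool.Agent.Lib.MP_0e6cae_nt.DH.Pal

/-!
Modules on which the rotation `x` acts as `1` or as `-1`.
-/

open CategoryTheory Polynomial

namespace Pool.Agent.Lib.MP_0e6cae_nt.DH

open KF

variable {C N : Type} [CommGroup C] [Group N] {f : C →* N} {x : C} {s : N}

/-- If the elements of the group act by scalars, so do the elements of the group ring. -/
theorem small_scal (χ : N → ℤ) (M S : Type) [AddCommGroup M]
    [Module (MonoidAlgebra ℤ N) M] [AddCommGroup S] [Module (MonoidAlgebra ℤ N) S]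
    (hMχ : ∀ (g : N) (y : M), (MonoidAlgebra.single g (1 : ℤ) : MonoidAlgebra ℤ N) • y = χ g • y)
    (hSχ : ∀ (g : N) (y : S), (MonoidAlgebra.single g (1 : ℤ) : MonoidAlgebra ℤ N) • y = χ g • y)
    (r : MonoidAlgebra ℤ N) : ∃ m : ℤ, (∀ y : M, r • y = m • y) ∧ ∀ y : S, r • y = m • y := by
  induction r using MonoidAlgebra.induction_linear with
  | zero => exact ⟨0, fun y => by rw [zero_smul, zero_smul], fun y => by rw [zero_smul, zero_smul]⟩
  | add a b ha hb =>
    obtain ⟨m, h1, h2⟩ := ha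
    obtain ⟨m', h1', h2'⟩ := hb
    exact ⟨m + m', fun y => by rw [add_smul, add_smul, h1, h1'],
      fun y => by rw [add_smul, add_smul, h2, h2']⟩
  | single g n =>
    have h1 : (MonoidAlgebra.single g n : MonoidAlgebra ℤ N) = n • MonoidAlgebra.single g (1 : ℤ) := by
      rw [MonoidAlgebra.smul_single, smul_eq_mul, mul_one]
    refine ⟨n * χ g, fun y => ?_, fun y => ?_⟩
    · rw [h1, smul_assoc, hMχ, mul_smul]
    · rw [h1, smul_assoc, hSχ, mul_smul]

/-- A module on which all elements act by scalars: if one such module of order `p` has class zero,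
all have class zero (the submodule generated by an element `≠ 0` has order `p`; induction). -/
theorem fcl_scalar [Finite N] (p : ℕ) (hp : p.Prime) (χ : N → ℤ) (M S : Type) [AddCommGroup M]
    [Module (MonoidAlgebra ℤ N) M] [AddCommGroup S] [Module (MonoidAlgebra ℤ N) S]
    (hM : FCop N M) (hS : FCop N S) (hMp : ∀ y : M, p • y = 0) (hSp : Nat.card S = p)
    (hMχ : ∀ (g : N) (y : M), (MonoidAlgebra.single g (1 : ℤ) : MonoidAlgebra ℤ N) • y = χ g • y)
    (hSχ : ∀ (g : N) (y : S), (MonoidAlgebra.single g (1 : ℤ) : MonoidAlgebra ℤ N) • y = χ g • y)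
    (h0 : fcl N S hS = 0) : fcl N M hM = 0 := by
  classical
  have := Fact.mk hp
  suffices H : ∀ (n : ℕ) (M : Type) [AddCommGroup M] [Module (MonoidAlgebra ℤ N) M]
      (hM : FCop N M), Nat.card M = n → (∀ y : M, p • y = 0) →
      (∀ (g : N) (y : M), (MonoidAlgebra.single g (1 : ℤ) : MonoidAlgebra ℤ N) • y = χ g • y) →
      fcl N M hM = 0 from H _ M hM rfl hMp hMχ
  intro n
  induction n using Nat.strong_induction_on with
  | _ n ih =>
    intro M _ _ hM hn hMp hMχ
    have hMfin := hM.1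
    by_cases hsub : Subsingleton M
    · exact fcl_zero hM
    rw [not_subsingleton_iff_nontrivial] at hsub
    obtain ⟨y, hy⟩ := exists_ne (0 : M)
    have hord : addOrderOf y = p := addOrderOf_eq_prime (hMp y) hy
    let T : Submodule (MonoidAlgebra ℤ N) M :=
      { AddSubgroup.zmultiples y with
        smul_mem' := fun r z hz => by
          obtain ⟨m, hm, -⟩ := small_scal χ M S hMχ hSχ r
          have h1 : m • z ∈ AddSubgroup.zmultiples y := (AddSubgroup.zmultiples y).zsmul_mem hz m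
          rw [← hm] at h1
          exact h1 }
    have hTc : Nat.card T = p := by
      have h1 : Nat.card (AddSubgroup.zmultiples y) = p := by rw [Nat.card_zmultiples, hord]
      exact h1
    let e : S ≃+ T := addEquivOfPrimeCardEq hSp hTc
    let e' : S ≃ₗ[MonoidAlgebra ℤ N] T :=
      { e with
        map_smul' := fun r z => by
          obtain ⟨m, hm, hm'⟩ := small_scal χ M S hMχ hSχ r
          change e (r • z) = r • e z
          rw [hm', map_zsmul]
          apply Subtype.ext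
          exact (hm _).symm }
    have hT : FCop N T := hM.inj T.subtype.toAddMonoidHom T.injective_subtype
    have hQ : FCop N (M ⧸ T) := hM.surj T.mkQ.toAddMonoidHom T.mkQ_surjective
    rw [fcl_exact hT hM hQ T.subtype T.mkQ T.injective_subtype (LinearMap.exact_subtype_mkQ T)
      T.mkQ_surjective, ← fcl_equiv hS hT e', h0, zero_add]
    refine ih (Nat.card (M ⧸ T)) ?_ (M ⧸ T) hQ rfl ?_ ?_
    · have h1 := Submodule.card_eq_card_quotient_mul_card T
      have h2 : 0 < Nat.card (M ⧸ T) := by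
        have := hQ.1
        exact Nat.card_pos
      rw [← hn, h1, hTc]
      nlinarith [hp.two_le]
    · intro z
      obtain ⟨z, rfl⟩ := T.mkQ_surjective z
      rw [← map_nsmul, hMp, map_zero]
    · intro g z
      obtain ⟨z, rfl⟩ := T.mkQ_surjective z
      rw [← map_smul, hMχ, map_zsmul]

/-- An exact sequence of quotients of the group ring by left ideals: `r ↦ r w`. -/
theorem small_exact [Finite N] (T T' T'' : Set (MonoidAlgebra ℤ N)) (w : MonoidAlgebra ℤ N)
    (h1 : ∀ t ∈ T', t * w ∈ Submodule.span (MonoidAlgebra ℤ N) T)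
    (h2 : ∀ r, r * w ∈ Submodule.span (MonoidAlgebra ℤ N) T →
      r ∈ Submodule.span (MonoidAlgebra ℤ N) T')
    (h3 : Submodule.span (MonoidAlgebra ℤ N) T'' =
      Submodule.span (MonoidAlgebra ℤ N) T ⊔ Submodule.span (MonoidAlgebra ℤ N) {w})
    (hT : FCop N (LQ T)) (hT' : FCop N (LQ T')) (hT'' : FCop N (LQ T'')) :
    fcl N (LQ T) hT = fcl N (LQ T') hT' + fcl N (LQ T'') hT'' := by
  let I := Submodule.span (MonoidAlgebra ℤ N) T
  let I' := Submodule.span (MonoidAlgebra ℤ N) T'
  let I'' := Submodule.span (MonoidAlgebra ℤ N) T''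
  let φ : MonoidAlgebra ℤ N →ₗ[MonoidAlgebra ℤ N] LQ T :=
    I.mkQ ∘ₗ LinearMap.toSpanSingleton (MonoidAlgebra ℤ N) (MonoidAlgebra ℤ N) w
  have hφ : ∀ r, φ r = Submodule.Quotient.mk (r * w) := fun r => rfl
  have hφ0 : I' ≤ LinearMap.ker φ := by
    rw [Submodule.span_le]
    intro t ht
    rw [SetLike.mem_coe, LinearMap.mem_ker, hφ, Submodule.Quotient.mk_eq_zero]
    exact h1 t ht
  let F : LQ T' →ₗ[MonoidAlgebra ℤ N] LQ T := I'.liftQ φ hφ0
  have hle : I ≤ I'' := by
    change I ≤ Submodule.span (MonoidAlgebra ℤ N) T''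
    rw [h3]
    exact le_sup_left
  let G : LQ T →ₗ[MonoidAlgebra ℤ N] LQ T'' := I.liftQ I''.mkQ (by
    rw [Submodule.ker_mkQ]
    exact hle)
  refine fcl_exact hT' hT hT'' F G ?_ ?_ ?_
  · rw [injective_iff_map_eq_zero]
    intro y hy
    obtain ⟨r, rfl⟩ := Submodule.Quotient.mk_surjective _ y
    have h4 : (Submodule.Quotient.mk (r * w) : LQ T) = 0 := hy
    rw [Submodule.Quotient.mk_eq_zero] at h4
    rw [Submodule.Quotient.mk_eq_zero]
    exact h2 r h4
  · intro y
    obtain ⟨r, rfl⟩ := Submodule.Quotient.mk_surjective _ y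
    have h4 : G (Submodule.Quotient.mk r) = Submodule.Quotient.mk r := rfl
    rw [h4, Submodule.Quotient.mk_eq_zero, h3, Submodule.mem_sup]
    constructor
    · rintro ⟨t, ht, v, hv, rfl⟩
      obtain ⟨a, rfl⟩ := Submodule.mem_span_singleton.1 hv
      refine ⟨Submodule.Quotient.mk a, ?_⟩
      have h5 : F (Submodule.Quotient.mk a) = Submodule.Quotient.mk (a * w) := rfl
      rw [h5, Submodule.Quotient.eq]
      have h6 : a * w - (t + a • w) = -t := by
        rw [smul_eq_mul]
        abel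
      rw [h6]
      exact neg_mem ht
    · rintro ⟨y, hy⟩
      obtain ⟨a, rfl⟩ := Submodule.Quotient.mk_surjective _ y
      have h5 : F (Submodule.Quotient.mk a) = Submodule.Quotient.mk (a * w) := rfl
      rw [h5, Submodule.Quotient.eq] at hy
      refine ⟨-(a * w - r), neg_mem hy, a • w, Submodule.mem_span_singleton.2 ⟨a, rfl⟩, ?_⟩
      rw [smul_eq_mul]
      abel
  · intro y
    obtain ⟨r, rfl⟩ := Submodule.Quotient.mk_surjective _ y
    exact ⟨Submodule.Quotient.mk r, rfl⟩

/-- The characters `x ↦ ε`, `s ↦ δ`. -/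
theorem small_chi [Finite C] (D : Dih f x s) (ε δ : ℤ) : ∃ χ : N → ℤ,
    (∀ I : Submodule (MonoidAlgebra ℤ N) (MonoidAlgebra ℤ N), el (f x) - (ε : MonoidAlgebra ℤ N) ∈ I →
      el s - (δ : MonoidAlgebra ℤ N) ∈ I → ∀ g, el g - (χ g : MonoidAlgebra ℤ N) ∈ I) ∧
    ∀ (M : Type) [AddCommGroup M] [Module (MonoidAlgebra ℤ N) M],
      (∀ y : M, el (f x) • y = ε • y) → (∀ y : M, el s • y = δ • y) →
      ∀ (g : N) (y : M), el g • y = χ g • y := by
  have h1 : ∀ g : N, ∃ m : ℤ,
      (∀ I : Submodule (MonoidAlgebra ℤ N) (MonoidAlgebra ℤ N),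
        el (f x) - (ε : MonoidAlgebra ℤ N) ∈ I →
        el s - (δ : MonoidAlgebra ℤ N) ∈ I → el g - (m : MonoidAlgebra ℤ N) ∈ I) ∧
      ∀ (M : Type) [AddCommGroup M] [Module (MonoidAlgebra ℤ N) M],
        (∀ y : M, el (f x) • y = ε • y) → (∀ y : M, el s • y = δ • y) →
        ∀ y : M, el g • y = m • y := by
    intro g
    have hpow : ∀ i : ℕ, (∀ I : Submodule (MonoidAlgebra ℤ N) (MonoidAlgebra ℤ N),
        el (f x) - (ε : MonoidAlgebra ℤ N) ∈ I →
        el (f (x ^ i)) - ((ε ^ i : ℤ) : MonoidAlgebra ℤ N) ∈ I) ∧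
      ∀ (M : Type) [AddCommGroup M] [Module (MonoidAlgebra ℤ N) M],
        (∀ y : M, el (f x) • y = ε • y) →
        ∀ y : M, el (f (x ^ i)) • y = ε ^ i • y := by
      intro i
      induction i with
      | zero =>
        refine ⟨fun I _ => ?_, fun M _ _ _ y => ?_⟩
        · rw [pow_zero, map_one, el_one, pow_zero, Int.cast_one, sub_self]
          exact I.zero_mem
        · rw [pow_zero, map_one, el_one, pow_zero, one_smul, one_smul]
      | succ i ih =>
        refine ⟨fun I hI => ?_, fun M _ _ hM y => ?_⟩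
        · have h2 : el (f (x ^ (i + 1))) - ((ε ^ (i + 1) : ℤ) : MonoidAlgebra ℤ N) =
              el (f (x ^ i)) * (el (f x) - (ε : MonoidAlgebra ℤ N)) +
                (ε : MonoidAlgebra ℤ N) * (el (f (x ^ i)) - ((ε ^ i : ℤ) : MonoidAlgebra ℤ N)) := by
            rw [mul_sub, mul_sub, el_mul, ← map_mul, ← pow_succ, ← Int.cast_mul, ← pow_succ',
              ← Int.cast_comm ε (el (f (x ^ i)))]
            abel
          rw [h2]
          exact I.add_mem (I.smul_mem _ hI) (I.smul_mem _ (ih.1 I hI))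
        · rw [pow_succ, map_mul, ← el_mul, mul_smul, hM, smul_comm, ih.2 M hM y,
            pow_succ', mul_smul]
    obtain ⟨c, hc⟩ := D.all g
    obtain ⟨i, rfl⟩ := Submonoid.mem_powers_iff _ _ |>.1 (mem_powers_iff_mem_zpowers.2 (D.gen c))
    rcases hc with rfl | rfl
    · exact ⟨ε ^ i, fun I h _ => (hpow i).1 I h, fun M _ _ h _ => (hpow i).2 M h⟩
    · refine ⟨ε ^ i * δ, fun I h h' => ?_, fun M _ _ h h' y => ?_⟩
      · have h2 : el (f (x ^ i) * s) - ((ε ^ i * δ : ℤ) : MonoidAlgebra ℤ N) =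
            el (f (x ^ i)) * (el s - (δ : MonoidAlgebra ℤ N)) +
              (δ : MonoidAlgebra ℤ N) * (el (f (x ^ i)) - ((ε ^ i : ℤ) : MonoidAlgebra ℤ N)) := by
          rw [mul_sub, mul_sub, el_mul, ← Int.cast_mul, mul_comm δ, ← Int.cast_comm δ (el (f (x ^ i)))]
          abel
        rw [h2]
        exact I.add_mem (I.smul_mem _ h') (I.smul_mem _ ((hpow i).1 I h))
      · rw [← el_mul, mul_smul, h', smul_comm, (hpow i).2 M h y, mul_comm, mul_smul]
  choose χ hχ using h1
  exact ⟨χ, fun I h h' g => (hχ g).1 I h h', fun M _ _ h h' g y => (hχ g).2 M h h' y⟩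

/-- Every element is congruent to an integer. -/
theorem small_int [Finite C] (D : Dih f x s) (ε δ : ℤ) (T : Set (MonoidAlgebra ℤ N))
    (hxT : el (f x) - (ε : MonoidAlgebra ℤ N) ∈ Submodule.span (MonoidAlgebra ℤ N) T)
    (hsT : el s - (δ : MonoidAlgebra ℤ N) ∈ Submodule.span (MonoidAlgebra ℤ N) T)
    (r : MonoidAlgebra ℤ N) :
    ∃ m : ℤ, r - (m : MonoidAlgebra ℤ N) ∈ Submodule.span (MonoidAlgebra ℤ N) T := by
  set I := Submodule.span (MonoidAlgebra ℤ N) T with hI
  obtain ⟨χ, hχ, -⟩ := small_chi D ε δ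
  induction r using MonoidAlgebra.induction_linear with
  | zero => exact ⟨0, by rw [Int.cast_zero, sub_zero]; exact I.zero_mem⟩
  | add a b ha hb =>
    obtain ⟨m, h⟩ := ha
    obtain ⟨m', h'⟩ := hb
    refine ⟨m + m', ?_⟩
    have h2 : a + b - ((m + m' : ℤ) : MonoidAlgebra ℤ N) =
        (a - (m : MonoidAlgebra ℤ N)) + (b - (m' : MonoidAlgebra ℤ N)) := by
      rw [Int.cast_add]
      abel
    rw [h2]
    exact I.add_mem h h'
  | single g n =>
    refine ⟨n * χ g, ?_⟩
    have h3 : (MonoidAlgebra.single g n : MonoidAlgebra ℤ N) = (n : MonoidAlgebra ℤ N) * el g := by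
      rw [← zsmul_eq_mul, el, MonoidAlgebra.smul_single, smul_eq_mul, mul_one]
    have h2 : (MonoidAlgebra.single g n : MonoidAlgebra ℤ N) -
        ((n * χ g : ℤ) : MonoidAlgebra ℤ N) =
        (n : MonoidAlgebra ℤ N) * (el g - (χ g : MonoidAlgebra ℤ N)) := by
      rw [mul_sub, Int.cast_mul, h3]
    rw [h2]
    exact I.smul_mem _ (hχ I hxT hsT g)

/-- The quotients of order `p` of the group ring. -/
theorem small_card [Finite C] (D : Dih f x s) (ε δ : ℤ) (p : ℕ) (hp : p.Prime)
    (T : Set (MonoidAlgebra ℤ N))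
    (hpT : (p : MonoidAlgebra ℤ N) ∈ Submodule.span (MonoidAlgebra ℤ N) T)
    (hxT : el (f x) - (ε : MonoidAlgebra ℤ N) ∈ Submodule.span (MonoidAlgebra ℤ N) T)
    (hsT : el s - (δ : MonoidAlgebra ℤ N) ∈ Submodule.span (MonoidAlgebra ℤ N) T)
    (h1T : (1 : MonoidAlgebra ℤ N) ∉ Submodule.span (MonoidAlgebra ℤ N) T) :
    Nat.card (LQ T) = p ∧ (∀ y : LQ T, el (f x) • y = ε • y) ∧ (∀ y : LQ T, el s • y = δ • y) := by
  have := Fact.mk hp
  set I := Submodule.span (MonoidAlgebra ℤ N) T with hI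
  have hm : ∀ r : MonoidAlgebra ℤ N, ∃ m : ℤ, r - (m : MonoidAlgebra ℤ N) ∈ I :=
    small_int D ε δ T hxT hsT
  let u : LQ T := Submodule.Quotient.mk 1
  have hmk : ∀ m : ℤ, (Submodule.Quotient.mk (m : MonoidAlgebra ℤ N) : LQ T) = m • u := by
    intro m
    rw [← Submodule.Quotient.mk_smul, zsmul_one]
  have hgen : ∀ y : LQ T, ∃ m : ℤ, y = m • u := by
    intro y
    obtain ⟨r, rfl⟩ := Submodule.Quotient.mk_surjective _ y
    obtain ⟨m, hm⟩ := hm r
    exact ⟨m, by rw [← hmk, Submodule.Quotient.eq]; exact hm⟩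
  have hu : u ≠ 0 := by
    intro h0
    exact h1T ((Submodule.Quotient.mk_eq_zero _).1 h0)
  have hpu : p • u = 0 := by
    have h2 := hmk p
    rw [natCast_zsmul] at h2
    rw [← h2, Submodule.Quotient.mk_eq_zero, Int.cast_natCast]
    exact hpT
  have hact : ∀ (g : N) (m : ℤ), el g - (m : MonoidAlgebra ℤ N) ∈ I → ∀ y : LQ T,
      el g • y = m • y := by
    intro g m hg y
    obtain ⟨k, rfl⟩ := hgen y
    have h2 : el g • u = m • u := by
      rw [← hmk, ← Submodule.Quotient.mk_smul, smul_eq_mul, mul_one, Submodule.Quotient.eq]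
      exact hg
    rw [smul_comm (el g) k u, h2, smul_comm]
  refine ⟨?_, hact (f x) ε hxT, hact s δ hsT⟩
  have h2 : addOrderOf u = p := addOrderOf_eq_prime hpu hu
  rw [← h2]
  refine (addOrderOf_eq_card_of_forall_mem_zmultiples fun y => ?_).symm
  obtain ⟨m, rfl⟩ := hgen y
  exact AddSubgroup.zsmul_mem_zmultiples _ _

/-- If a quotient of order `p` has class zero, all modules with the same action have. -/
theorem small_fcl [Finite C] [Finite N] (D : Dih f x s) (ε δ : ℤ) (p : ℕ) (hp : p.Prime)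
    (T : Set (MonoidAlgebra ℤ N))
    (hpT : (p : MonoidAlgebra ℤ N) ∈ Submodule.span (MonoidAlgebra ℤ N) T)
    (hxT : el (f x) - (ε : MonoidAlgebra ℤ N) ∈ Submodule.span (MonoidAlgebra ℤ N) T)
    (hsT : el s - (δ : MonoidAlgebra ℤ N) ∈ Submodule.span (MonoidAlgebra ℤ N) T)
    (h1T : (1 : MonoidAlgebra ℤ N) ∉ Submodule.span (MonoidAlgebra ℤ N) T)
    (hT : FCop N (LQ T)) (h0 : fcl N (LQ T) hT = 0)
    (M : Type) [AddCommGroup M] [Module (MonoidAlgebra ℤ N) M]
    (h : FCop N M) (hMp : ∀ y : M, p • y = 0) (hx : ∀ y : M, el (f x) • y = ε • y)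
    (hs : ∀ y : M, el s • y = δ • y) : fcl N M h = 0 := by
  obtain ⟨χ, -, hχ⟩ := small_chi D ε δ
  obtain ⟨h1, h2, h3⟩ := small_card D ε δ p hp T hpT hxT hsT h1T
  exact fcl_scalar p hp χ M (LQ T) h hT hMp h1 (hχ M hx hs) (hχ (LQ T) h2 h3) h0

/-- The submodule of the fixed elements of `s` and its quotient. -/
theorem small_split [Finite C] [Finite N] (D : Dih f x s) (p : ℕ) (ε : ℤ) (M : Type)
    [AddCommGroup M] [Module (MonoidAlgebra ℤ N) M] (h : FCop N M) (hMp : ∀ y : M, p • y = 0)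
    (hx : ∀ y : M, el (f x) • y = ε • y)
    (hpos : ∀ (M' : Type) [AddCommGroup M'] [Module (MonoidAlgebra ℤ N) M'] (h' : FCop N M'),
      (∀ y : M', p • y = 0) → (∀ y : M', el (f x) • y = ε • y) →
      (∀ y : M', el s • y = (1 : ℤ) • y) → fcl N M' h' = 0)
    (hneg : ∀ (M' : Type) [AddCommGroup M'] [Module (MonoidAlgebra ℤ N) M'] (h' : FCop N M'),
      (∀ y : M', p • y = 0) → (∀ y : M', el (f x) • y = ε • y) →
      (∀ y : M', el s • y = (-1 : ℤ) • y) → fcl N M' h' = 0) :
    fcl N M h = 0 := by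
  have hrot : ∀ c : C, ∃ m : ℤ, ∀ y : M, el (f c) • y = m • y := by
    intro c
    obtain ⟨i, rfl⟩ := Submonoid.mem_powers_iff _ _ |>.1 (mem_powers_iff_mem_zpowers.2 (D.gen c))
    refine ⟨ε ^ i, fun y => ?_⟩
    induction i with
    | zero => rw [pow_zero, map_one, el_one, pow_zero, one_smul, one_smul]
    | succ i ih => rw [pow_succ, map_mul, ← el_mul, mul_smul, hx, smul_comm, ih, pow_succ', mul_smul]
  have hss : ∀ y : M, el s • el s • y = y := by
    intro y
    rw [← mul_smul, el_mul, D.sq, el_one, one_smul]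
  have hmem : ∀ (r : MonoidAlgebra ℤ N) (y : M), el s • y = y → el s • (r • y) = r • y := by
    intro r y hy
    induction r using MonoidAlgebra.induction_linear with
    | zero => rw [zero_smul, smul_zero]
    | add a b ha hb => rw [add_smul, smul_add, ha, hb]
    | single g n =>
      have h1 : (MonoidAlgebra.single g n : MonoidAlgebra ℤ N) = n • el g := by
        rw [el, MonoidAlgebra.smul_single, smul_eq_mul, mul_one]
      have h2 : el s • (el g • y) = el g • y := by
        obtain ⟨c, rfl | rfl⟩ := D.all g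
        · obtain ⟨m, hm⟩ := hrot c
          rw [hm, smul_comm, hy]
        · obtain ⟨m, hm⟩ := hrot c
          rw [← el_mul, mul_smul, hy, hm, smul_comm, hy]
      rw [h1, smul_assoc, smul_comm, h2]
  let P : Submodule (MonoidAlgebra ℤ N) M :=
    { carrier := {y | el s • y = y}
      zero_mem' := smul_zero _
      add_mem' := fun {a b} ha hb => by
        change el s • (a + b) = a + b
        rw [smul_add, ha, hb]
      smul_mem' := fun r y hy => hmem r y hy }
  have hP : FCop N P := h.inj P.subtype.toAddMonoidHom P.injective_subtype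
  have hQ : FCop N (M ⧸ P) := h.surj P.mkQ.toAddMonoidHom P.mkQ_surjective
  rw [fcl_exact hP h hQ P.subtype P.mkQ P.injective_subtype (LinearMap.exact_subtype_mkQ P)
    P.mkQ_surjective, hpos P hP, hneg (M ⧸ P) hQ, add_zero]
  · intro z
    obtain ⟨z, rfl⟩ := P.mkQ_surjective z
    rw [← map_nsmul, hMp, map_zero]
  · intro z
    obtain ⟨z, rfl⟩ := P.mkQ_surjective z
    rw [← map_smul, hx, map_zsmul]
  · intro z
    obtain ⟨z, rfl⟩ := P.mkQ_surjective z
    rw [← map_smul, neg_smul, one_smul, ← map_neg, Submodule.mkQ_apply, Submodule.mkQ_apply,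
      Submodule.Quotient.eq]
    change el s • (el s • z - -z) = el s • z - -z
    rw [sub_neg_eq_add, smul_add, hss, add_comm]
  · exact fun y => Subtype.ext (hMp y)
  · exact fun y => Subtype.ext (hx y)
  · intro y
    apply Subtype.ext
    change el s • (y : M) = (1 : ℤ) • (y : M)
    rw [one_smul]
    exact y.2

/-- a ring homomorphism to the integers which maps a set to multiples of `p` -/
theorem small_dvd {R : Type} [Ring R] (φ : R →+* ℤ) (p : ℕ) (T : Set R)
    (hT : ∀ t ∈ T, (p : ℤ) ∣ φ t) (r : R) (hr : r ∈ Submodule.span R T) : (p : ℤ) ∣ φ r := by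
  induction hr using Submodule.span_induction with
  | mem t ht => exact hT t ht
  | zero => rw [map_zero]; exact dvd_zero _
  | add a b _ _ ha hb => rw [map_add]; exact dvd_add ha hb
  | smul a b _ hb => rw [smul_eq_mul, map_mul]; exact hb.mul_left _

/-- the augmentation -/
theorem small_aug (G : Type) [Group G] : ∃ φ : MonoidAlgebra ℤ G →+* ℤ, ∀ g : G, φ (el g) = 1 :=
  ⟨(MonoidAlgebra.lift ℤ ℤ G 1 : MonoidAlgebra ℤ G →ₐ[ℤ] ℤ).toRingHom, fun g => by simp [el]⟩

theorem one_notMem_pos [Finite C] [Finite N] (p : ℕ) (hp : p.Prime) :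
    (1 : MonoidAlgebra ℤ N) ∉ Submodule.span (MonoidAlgebra ℤ N)
      ({(p : MonoidAlgebra ℤ N), el (f x) ^ 1 - 1, el s - 1} : Set (MonoidAlgebra ℤ N)) := by
  intro h1
  obtain ⟨φ, hφ⟩ := small_aug N
  have h2 := small_dvd φ p _ (by
    rintro t (rfl | rfl | rfl)
    · rw [map_natCast]
    · rw [map_sub, map_pow, hφ, map_one, one_pow, sub_self]; exact dvd_zero _
    · rw [map_sub, hφ, map_one, sub_self]; exact dvd_zero _) 1 h1
  rw [map_one] at h2
  have h3 : (p : ℤ) ∣ ((1 : ℕ) : ℤ) := by exact_mod_cast h2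
  exact hp.one_lt.ne' (Nat.dvd_one.1 (Int.natCast_dvd_natCast.1 h3))

/-- The kernel of `ℤ[N]/T → ℤ[N]/(T, w)` if it is generated by `w` with `x = ε`, `s = δ`. -/
theorem small_ker [Finite C] [Finite N] (D : Dih f x s) (ε δ : ℤ) (p : ℕ) (hp : p.Prime)
    (hpn : ¬ p ∣ Nat.card N) (T T'' : Set (MonoidAlgebra ℤ N)) (w : MonoidAlgebra ℤ N)
    (hpT : (p : MonoidAlgebra ℤ N) ∈ Submodule.span (MonoidAlgebra ℤ N) T)
    (hx : (el (f x) - (ε : MonoidAlgebra ℤ N)) * w ∈ Submodule.span (MonoidAlgebra ℤ N) T)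
    (hs : (el s - (δ : MonoidAlgebra ℤ N)) * w ∈ Submodule.span (MonoidAlgebra ℤ N) T)
    (hm : ∀ m : ℤ, (m : MonoidAlgebra ℤ N) * w ∈ Submodule.span (MonoidAlgebra ℤ N) T →
      (p : ℤ) ∣ m)
    (h3 : Submodule.span (MonoidAlgebra ℤ N) T'' =
      Submodule.span (MonoidAlgebra ℤ N) T ⊔ Submodule.span (MonoidAlgebra ℤ N) {w})
    (hT : FCop N (LQ T)) (hT'' : FCop N (LQ T''))
    (h0 : fcl N (LQ T) hT = 0) (h0'' : fcl N (LQ T'') hT'' = 0)
    (M : Type) [AddCommGroup M] [Module (MonoidAlgebra ℤ N) M]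
    (h : FCop N M) (hMp : ∀ y : M, p • y = 0) (hMx : ∀ y : M, el (f x) • y = ε • y)
    (hMs : ∀ y : M, el s • y = δ • y) : fcl N M h = 0 := by
  set T' : Set (MonoidAlgebra ℤ N) :=
    {(p : MonoidAlgebra ℤ N), el (f x) - (ε : MonoidAlgebra ℤ N), el s - (δ : MonoidAlgebra ℤ N)}
    with hT'
  have hp' : (p : MonoidAlgebra ℤ N) ∈ Submodule.span (MonoidAlgebra ℤ N) T' :=
    Submodule.subset_span (Set.mem_insert _ _)
  have hx' : el (f x) - (ε : MonoidAlgebra ℤ N) ∈ Submodule.span (MonoidAlgebra ℤ N) T' :=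
    Submodule.subset_span (Set.mem_insert_of_mem _ (Set.mem_insert _ _))
  have hs' : el s - (δ : MonoidAlgebra ℤ N) ∈ Submodule.span (MonoidAlgebra ℤ N) T' :=
    Submodule.subset_span (Set.mem_insert_of_mem _ (Set.mem_insert_of_mem _ rfl))
  have h1 : ∀ t ∈ T', t * w ∈ Submodule.span (MonoidAlgebra ℤ N) T := by
    rintro t (rfl | rfl | rfl)
    · rw [Nat.cast_comm]
      exact Submodule.smul_mem _ w hpT
    · exact hx
    · exact hs
  have h1' : ∀ t ∈ Submodule.span (MonoidAlgebra ℤ N) T',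
      t * w ∈ Submodule.span (MonoidAlgebra ℤ N) T := by
    intro t ht
    induction ht using Submodule.span_induction with
    | mem t ht => exact h1 t ht
    | zero => rw [zero_mul]; exact Submodule.zero_mem _
    | add a b _ _ ha hb => rw [add_mul]; exact Submodule.add_mem _ ha hb
    | smul a b _ hb => rw [smul_eq_mul, mul_assoc]; exact Submodule.smul_mem _ a hb
  have h1T : (1 : MonoidAlgebra ℤ N) ∉ Submodule.span (MonoidAlgebra ℤ N) T' := by
    intro h4
    have h5 := hm 1 (by rw [Int.cast_one]; exact h1' 1 h4)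
    have h6 : (p : ℤ) ∣ ((1 : ℕ) : ℤ) := by exact_mod_cast h5
    exact hp.one_lt.ne' (Nat.dvd_one.1 (Int.natCast_dvd_natCast.1 h6))
  have h2 : ∀ r, r * w ∈ Submodule.span (MonoidAlgebra ℤ N) T →
      r ∈ Submodule.span (MonoidAlgebra ℤ N) T' := by
    intro r hr
    obtain ⟨m, hmr⟩ := small_int D ε δ T' hx' hs' r
    have h4 := Submodule.sub_mem _ hr (h1' _ hmr)
    rw [sub_mul, sub_sub_cancel] at h4
    obtain ⟨k, rfl⟩ := hm m h4
    have h5 : ((p * k : ℤ) : MonoidAlgebra ℤ N) ∈ Submodule.span (MonoidAlgebra ℤ N) T' := by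
      rw [mul_comm, Int.cast_mul, Int.cast_natCast]
      exact Submodule.smul_mem _ _ hp'
    have h6 := Submodule.add_mem _ hmr h5
    rw [sub_add_cancel] at h6
    exact h6
  have hfc : FCop N (LQ T') := LQ.fcop p hp hpn _ hp'
  have h4 := small_exact T T' T'' w h1 h2 h3 hT hfc hT''
  rw [h0, h0'', add_zero] at h4
  exact small_fcl D ε δ p hp T' hp' hx' hs' h1T hfc h4.symm M h hMp hMx hMs

/-- `p` is odd -/
theorem small_odd [Finite C] [Finite N] (D : Dih f x s) (p : ℕ) (hp : p.Prime)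
    (hpn : ¬ p ∣ Nat.card N) : ∀ m : ℤ, (p : ℤ) ∣ 2 * m → (p : ℤ) ∣ m := by
  intro m hm
  have hp' : Prime (p : ℤ) := Nat.prime_iff_prime_int.1 hp
  rcases hp'.dvd_or_dvd hm with h | h
  · exfalso
    have h1 : p ∣ 2 := by
      have h2 : (p : ℤ) ∣ ((2 : ℕ) : ℤ) := by exact_mod_cast h
      exact Int.natCast_dvd_natCast.1 h2
    apply hpn
    rw [D.card]
    exact h1.mul_right _
  · exact h

theorem small_pos [Finite C] [Finite N] (D : Dih f x s) (p : ℕ) (hp : p.Prime)
    (hpn : ¬ p ∣ Nat.card N) (M : Type) [AddCommGroup M] [Module (MonoidAlgebra ℤ N) M]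
    (h : FCop N M) (hMp : ∀ y : M, p • y = 0) (hx : ∀ y : M, el (f x) • y = (1 : ℤ) • y)
    (hs : ∀ y : M, el s • y = (1 : ℤ) • y) : fcl N M h = 0 := by
  have hpT : (p : MonoidAlgebra ℤ N) ∈ Submodule.span (MonoidAlgebra ℤ N)
      ({(p : MonoidAlgebra ℤ N), el (f x) ^ 1 - 1, el s - 1} : Set (MonoidAlgebra ℤ N)) :=
    Submodule.subset_span (Set.mem_insert _ _)
  refine small_fcl D 1 1 p hp _ hpT ?_ ?_ (one_notMem_pos p hp) (LQ.fcop p hp hpn _ hpT)
    (fcl_perm D p hp hpn 1 _) M h hMp hx hs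
  · rw [Int.cast_one]
    refine Submodule.subset_span (Set.mem_insert_of_mem _ (Or.inl ?_))
    rw [pow_one]
  · rw [Int.cast_one]
    exact Submodule.subset_span (Set.mem_insert_of_mem _ (Set.mem_insert_of_mem _ rfl))

/-- `x = 1`. (`M = M⁺ ⊕ M⁻`, `s = ±1` on `M^±` (`p` is odd). The modules of order `p`:
`K₊ = ℤ[N]/(p, x - 1, s - 1)` has class `0` (`fcl_perm`, `d = 1`); `ℤ[N]/(p, x - 1)` has class `0`
(`fcl_rot`) and is an extension of `K₊` by `K₋ = ℤ[N]/(p, x - 1, s + 1)`.) -/
theorem fcl_one [Finite C] [Finite N] (D : Dih f x s) (p : ℕ) (hp : p.Prime)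
    (hpn : ¬ p ∣ Nat.card N) (M : Type) [AddCommGroup M] [Module (MonoidAlgebra ℤ N) M]
    (h : FCop N M) (hMp : ∀ y : M, p • y = 0) (hx : ∀ y : M, el (f x) • y = y) :
    fcl N M h = 0 := by
  refine small_split D p 1 M h hMp (fun y => by rw [hx, one_smul]) ?_ ?_
  · intro M' _ _ h' hp' hx' hs'
    exact small_pos D p hp hpn M' h' hp' hx' hs'
  · intro M' _ _ h' hp' hx' hs'
    have hpT : (p : MonoidAlgebra ℤ N) ∈ Submodule.span (MonoidAlgebra ℤ N)
        ({(p : MonoidAlgebra ℤ N), el (f x) - 1} : Set (MonoidAlgebra ℤ N)) :=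
      Submodule.subset_span (Set.mem_insert _ _)
    have hxT : el (f x) - 1 ∈ Submodule.span (MonoidAlgebra ℤ N)
        ({(p : MonoidAlgebra ℤ N), el (f x) - 1} : Set (MonoidAlgebra ℤ N)) :=
      Submodule.subset_span (Set.mem_insert_of_mem _ rfl)
    have hss : el s * el s = 1 := by rw [el_mul, D.sq, el_one]
    have hpT'' : (p : MonoidAlgebra ℤ N) ∈ Submodule.span (MonoidAlgebra ℤ N)
        ({(p : MonoidAlgebra ℤ N), el (f x) ^ 1 - 1, el s - 1} : Set (MonoidAlgebra ℤ N)) :=
      Submodule.subset_span (Set.mem_insert _ _)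
    refine small_ker D 1 (-1) p hp hpn _ _ (el s - 1) hpT ?_ ?_ ?_ ?_ (LQ.fcop p hp hpn _ hpT)
      (LQ.fcop p hp hpn _ hpT'') (fcl_rot D p hp hpn _) (fcl_perm D p hp hpn 1 _) M' h' hp' hx' hs'
    · have h1 : el (f x) * el s = el s * el (f x⁻¹) := by
        rw [el_mul, el_mul, D.conj, inv_inv]
      have h2 : el (f x⁻¹) * el (f x) = 1 := by
        rw [el_mul, ← map_mul, inv_mul_cancel, map_one, el_one]
      have h3 : (el (f x) - ((1 : ℤ) : MonoidAlgebra ℤ N)) * (el s - 1) =
          (-(el s * el (f x⁻¹)) - 1) * (el (f x) - 1) := by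
        have h4 : el s * el (f x⁻¹) * el (f x) = el s := by rw [mul_assoc, h2, mul_one]
        rw [Int.cast_one, sub_mul, mul_sub, h1, sub_mul, neg_mul, mul_sub (el s * el (f x⁻¹)), h4]
        noncomm_ring
      rw [h3]
      exact Submodule.smul_mem _ _ hxT
    · have h3 : (el s - ((-1 : ℤ) : MonoidAlgebra ℤ N)) * (el s - 1) = 0 := by
        rw [Int.cast_neg, Int.cast_one, sub_neg_eq_add, add_mul, mul_sub, hss]
        noncomm_ring
      rw [h3]
      exact Submodule.zero_mem _
    · intro m hm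
      obtain ⟨α, β, h1⟩ := Submodule.mem_span_pair.1 hm
      obtain ⟨a₁, a₂, rfl⟩ := D.exists_pair α
      obtain ⟨b₁, b₂, rfl⟩ := D.exists_pair β
      obtain ⟨φ, hφ⟩ := small_aug C
      have e1 : (io f a₁ + io f a₂ * el s) * (p : MonoidAlgebra ℤ N) =
          io f (a₁ * p) + io f (a₂ * p) * el s := by
        rw [map_mul, map_mul, map_natCast, add_mul, mul_assoc, mul_assoc, Nat.cast_comm]
      have e2 : (io f b₁ + io f b₂ * el s) * (el (f x) - 1) =
          io f (b₁ * (el x - 1)) + io f (b₂ * (el x⁻¹ - 1)) * el s := by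
        rw [map_mul, map_mul, map_sub, map_sub, io_single, io_single, map_one, add_mul, mul_assoc,
          mul_assoc, sub_mul (el (f x⁻¹)), mul_sub (el s), D.s_mul_el, mul_one, one_mul]
      rw [smul_eq_mul, smul_eq_mul, e1, e2] at h1
      have h2 : io f (a₁ * p + b₁ * (el x - 1) + m) +
          io f (a₂ * p + b₂ * (el x⁻¹ - 1) - m) * el s = 0 := by
        have e3 : (m : MonoidAlgebra ℤ N) * (el s - 1) = (m : MonoidAlgebra ℤ N) * el s - m := by
          rw [mul_sub, mul_one]
        rw [e3] at h1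
        rw [map_add, map_sub, map_add, map_add, map_intCast, sub_mul, add_mul]
        have h5 : io f (a₁ * p) + io f (b₁ * (el x - 1)) + (m : MonoidAlgebra ℤ N) +
            (io f (a₂ * p) * el s + io f (b₂ * (el x⁻¹ - 1)) * el s - (m : MonoidAlgebra ℤ N) * el s) =
            (io f (a₁ * p) + io f (a₂ * p) * el s + (io f (b₁ * (el x - 1)) +
              io f (b₂ * (el x⁻¹ - 1)) * el s)) - ((m : MonoidAlgebra ℤ N) * el s - m) := by
          abel
        rw [h5, h1, sub_self]
      have h3 := congrArg φ (D.pair_inj _ _ h2).1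
      rw [map_add, map_add, map_mul, map_mul, map_sub, hφ, map_one, sub_self, mul_zero, add_zero,
        map_natCast, map_intCast, map_zero, Int.cast_id] at h3
      exact ⟨-φ a₁, by linarith⟩
    · apply le_antisymm
      · rw [Submodule.span_le]
        rintro t (rfl | rfl | rfl)
        · exact Submodule.mem_sup_left hpT
        · rw [pow_one]
          exact Submodule.mem_sup_left hxT
        · exact Submodule.mem_sup_right (Submodule.mem_span_singleton_self _)
      · refine sup_le ?_ ?_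
        · rw [Submodule.span_le]
          rintro t (rfl | rfl)
          · exact hpT''
          · refine Submodule.subset_span (Set.mem_insert_of_mem _ (Or.inl ?_))
            rw [pow_one]
        · rw [Submodule.span_singleton_le_iff_mem]
          exact Submodule.subset_span (Set.mem_insert_of_mem _ (Set.mem_insert_of_mem _ rfl))

/-- `x = -1`, `s = 1`, `|C|` even -/
theorem small_neg [Finite C] [Finite N] (D : Dih f x s) (hC : Even (Nat.card C)) (p : ℕ)
    (hp : p.Prime) (hpn : ¬ p ∣ Nat.card N) (M : Type) [AddCommGroup M]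
    [Module (MonoidAlgebra ℤ N) M] (h : FCop N M) (hMp : ∀ y : M, p • y = 0)
    (hx : ∀ y : M, el (f x) • y = (-1 : ℤ) • y)
    (hs : ∀ y : M, el s • y = (1 : ℤ) • y) : fcl N M h = 0 := by
  set T : Set (MonoidAlgebra ℤ N) :=
    {(p : MonoidAlgebra ℤ N), el (f x) ^ 2 - 1, el s - 1} with hT
  set T'' : Set (MonoidAlgebra ℤ N) :=
    {(p : MonoidAlgebra ℤ N), el (f x) ^ 1 - 1, el s - 1} with hT''
  have hpT : (p : MonoidAlgebra ℤ N) ∈ Submodule.span (MonoidAlgebra ℤ N) T :=
    Submodule.subset_span (Set.mem_insert _ _)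
  have hxT : el (f x) ^ 2 - 1 ∈ Submodule.span (MonoidAlgebra ℤ N) T :=
    Submodule.subset_span (Set.mem_insert_of_mem _ (Set.mem_insert _ _))
  have hsT : el s - 1 ∈ Submodule.span (MonoidAlgebra ℤ N) T :=
    Submodule.subset_span (Set.mem_insert_of_mem _ (Set.mem_insert_of_mem _ rfl))
  have hpT'' : (p : MonoidAlgebra ℤ N) ∈ Submodule.span (MonoidAlgebra ℤ N) T'' :=
    Submodule.subset_span (Set.mem_insert _ _)
  have hxT'' : el (f x) - 1 ∈ Submodule.span (MonoidAlgebra ℤ N) T'' := by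
    refine Submodule.subset_span (Set.mem_insert_of_mem _ (Or.inl ?_))
    rw [pow_one]
  have hfac : (el (f x) + 1) * (el (f x) - 1) = el (f x) ^ 2 - 1 := by
    rw [sq]
    noncomm_ring
  refine small_ker D (-1) 1 p hp hpn T T'' (el (f x) - 1) hpT ?_ ?_ ?_ ?_ (LQ.fcop p hp hpn _ hpT)
    (LQ.fcop p hp hpn _ hpT'') (fcl_perm D p hp hpn 2 _) (fcl_perm D p hp hpn 1 _) M h hMp hx hs
  · rw [Int.cast_neg, Int.cast_one, sub_neg_eq_add, hfac]
    exact hxT
  · have h1 : el s * el (f x) = el (f x⁻¹) * el s := D.s_mul_el x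
    have h2 : el (f x⁻¹) * el (f x) = 1 := by
      rw [el_mul, ← map_mul, inv_mul_cancel, map_one, el_one]
    have h3 : (el s - ((1 : ℤ) : MonoidAlgebra ℤ N)) * (el (f x) - 1) =
        (el (f x⁻¹) - 1) * (el s - 1) + (-(el (f x⁻¹))) * (el (f x) ^ 2 - 1) := by
      have h4 : el (f x⁻¹) * el (f x) ^ 2 = el (f x) := by rw [sq, ← mul_assoc, h2, one_mul]
      rw [Int.cast_one, sub_mul, mul_sub, h1, neg_mul, mul_sub (el (f x⁻¹)), h4]
      noncomm_ring
    rw [h3]
    exact Submodule.add_mem _ (Submodule.smul_mem _ _ hsT) (Submodule.smul_mem _ _ hxT)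
  · intro m hm
    have h1 : aeval (el (f x)) (X ^ 2 - 1 : ℤ[X]) = el (f x) ^ 2 - 1 := by
      rw [map_sub, map_pow, aeval_X, map_one]
    have h2 := (pm_mem D p (X ^ 2 - 1 : ℤ[X]) (pal_pow x 2) ((m : MonoidAlgebra ℤ C) * (el x - 1))).1
      (by
        rw [h1, map_mul, map_intCast, map_sub, io_single, map_one]
        exact hm)
    have hord : orderOf x = Nat.card C := orderOf_eq_card_of_forall_mem_zpowers D.gen
    have hdvd : orderOf (-1 : ℤˣ) ∣ orderOf x := by
      apply orderOf_dvd_of_pow_eq_one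
      rw [hord]
      exact hC.neg_one_pow
    let F : C →* ℤˣ := monoidHomOfForallMemZpowers D.gen hdvd
    have hF : F x = -1 := monoidHomOfForallMemZpowers_apply_gen D.gen hdvd
    let φ : MonoidAlgebra ℤ C →+* ℤ :=
      (MonoidAlgebra.lift ℤ ℤ C ((Units.coeHom ℤ).comp F) : MonoidAlgebra ℤ C →ₐ[ℤ] ℤ).toRingHom
    have hφ : φ (el x) = -1 := by
      have h3 : φ (el x) = ((F x : ℤˣ) : ℤ) := by simp [φ, el]
      rw [h3, hF]
      rfl
    have h4 := small_dvd φ p _ (by
      rintro t (rfl | rfl)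
      · rw [map_natCast]
      · rw [map_sub, map_pow, aeval_X, map_one, map_sub, map_pow, hφ, map_one]
        norm_num) _ h2
    rw [map_mul, map_intCast, map_sub, hφ, map_one, Int.cast_id] at h4
    apply small_odd D p hp hpn
    have h5 : m * (-1 - 1) = -(2 * m) := by ring
    rw [h5, dvd_neg] at h4
    exact h4
  · apply le_antisymm
    · rw [Submodule.span_le]
      rintro t (rfl | rfl | rfl)
      · exact Submodule.mem_sup_left hpT
      · rw [pow_one]
        exact Submodule.mem_sup_right (Submodule.mem_span_singleton_self _)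
      · exact Submodule.mem_sup_left hsT
    · refine sup_le ?_ ?_
      · rw [Submodule.span_le]
        rintro t (rfl | rfl | rfl)
        · exact hpT''
        · rw [SetLike.mem_coe, ← hfac]
          exact Submodule.smul_mem _ _ hxT''
        · exact Submodule.subset_span (Set.mem_insert_of_mem _ (Set.mem_insert_of_mem _ rfl))
      · rw [Submodule.span_singleton_le_iff_mem]
        exact hxT''

/-- `x = -1`. (If `M ≠ 0` then `|C|` is even. `M = M⁺ ⊕ M⁻`. The modules of order `p`: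
`ℤ[N]/(p, x^2 - 1, s - 1)` has class `0` (`fcl_perm`, `d = 2`) and is an extension of
`ℤ[N]/(p, x - 1, s - 1)` (class `0`, `fcl_perm`, `d = 1`) by `ℤ[N]/(p, x + 1, s - 1)`; for
`ℤ[N]/(p, x + 1, s + 1) = ℤ[N]/(p, x + 1, x s - 1)` use the reflection `x s` (`Dih.shift`).) -/
theorem fcl_neg [Finite C] [Finite N] (D : Dih f x s) (p : ℕ) (hp : p.Prime)
    (hpn : ¬ p ∣ Nat.card N) (M : Type) [AddCommGroup M] [Module (MonoidAlgebra ℤ N) M]
    (h : FCop N M) (hMp : ∀ y : M, p • y = 0) (hx : ∀ y : M, el (f x) • y = -y) :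
    fcl N M h = 0 := by
  by_cases hC : Even (Nat.card C)
  · refine small_split D p (-1) M h hMp (fun y => by rw [hx, neg_smul, one_smul]) ?_ ?_
    · intro M' _ _ h' hp' hx' hs'
      exact small_neg D hC p hp hpn M' h' hp' hx' hs'
    · intro M' _ _ h' hp' hx' hs'
      refine small_neg D.shift hC p hp hpn M' h' hp' hx' fun y => ?_
      rw [← el_mul, mul_smul, hs', smul_comm, hx', smul_smul]
      norm_num
  · have hsub : Subsingleton M := by
      have hpow : ∀ (i : ℕ) (y : M), el (f x) ^ i • y = (-1 : ℤ) ^ i • y := by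
        intro i
        induction i with
        | zero => intro y; rw [pow_zero, pow_zero, one_smul, one_smul]
        | succ i ih =>
          intro y
          rw [pow_succ, mul_smul, hx, smul_neg, ih, pow_succ, mul_smul, neg_smul, one_smul, smul_neg]
      have h0 : ∀ y : M, y = 0 := by
        intro y
        have h1 := hpow (Nat.card C) y
        have h2 : el (f x) ^ Nat.card C = 1 := by
          rw [MonoidAlgebra.single_pow, ← map_pow, pow_card_eq_one', map_one, one_pow]
          rfl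
        rw [h2, one_smul, (Nat.not_even_iff_odd.1 hC).neg_one_pow, neg_smul, one_smul] at h1
        have h3 : (2 : ℤ) • y = 0 := by
          rw [two_smul]
          nth_rewrite 1 [h1]
          exact neg_add_cancel y
        have h4 : (p : ℤ) • y = 0 := by rw [natCast_zsmul, hMp]
        have hp2 : IsCoprime (2 : ℤ) (p : ℤ) := by
          have h5 : ¬ (p : ℤ) ∣ 2 := by
            intro h6
            have h7 := small_odd D p hp hpn 1 (by rw [mul_one]; exact h6)
            have h8 : (p : ℤ) ∣ ((1 : ℕ) : ℤ) := by exact_mod_cast h7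
            exact hp.one_lt.ne' (Nat.dvd_one.1 (Int.natCast_dvd_natCast.1 h8))
          exact ((Nat.prime_iff_prime_int.1 hp).coprime_iff_not_dvd.2 h5).symm
        obtain ⟨a, b, hab⟩ := hp2
        rw [← one_smul ℤ y, ← hab, add_smul, mul_smul, mul_smul, h3, h4, smul_zero, smul_zero,
          add_zero]
      exact ⟨fun a b => by rw [h0 a, h0 b]⟩
    exact fcl_zero h

end Pool.Agent.Lib.MP_0e6cae_nt.DH
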