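import Pool.Agent.Lib.MP_0e6cae_nt.DH.Sub
import Pool.Agent.Lib.MP_0e6cae_nt.DH.Free
import Pool.Agent.Lib.MP_0e6cae_nt.DH.Small
import Pool.Agent.Lib.MP_0e6cae_nt.DH.PCyc

/-!
The vanishing theorem for dihedral groups.
-/

open CategoryTheory Polynomial

namespace Pool.Agent.Lib.MP_0e6cae_nt.DH

open KF SW

variable {C N : Type} [CommGroup C] [Group N] {f : C →* N} {x : C} {s : N}

/-- **The vanishing theorem.** (Strong induction on the cardinality, as in `KF.fcl_eq_zero`: `p`,
`d` from `KF.exists_sub` for `ResF f M`; `V` from `exists_sub_dih`; the class of `V` is zero by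
`fcl_one` (`d = 1`), `fcl_neg` (`d = 2`), `exists_free_dih` and `pcl_cyclotomic` (`d ≥ 3`).) -/
theorem fcl_eq_zero_dih [Finite C] [Finite N] (D : Dih f x s) (M : Type) [AddCommGroup M]
    [Module (MonoidAlgebra ℤ N) M] (h : FCop N M) (hA : Aut x (ResF f M)) : fcl N M h = 0 := by
  suffices key : ∀ (n : ℕ) (M : Type) [AddCommGroup M] [Module (MonoidAlgebra ℤ N) M]
      (h : FCop N M) (_ : Aut x (ResF f M)), Nat.card M = n → fcl N M h = 0 from
    key _ M h hA rfl
  intro n
  induction n using Nat.strong_induction_on with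
  | _ n ih =>
    intro M _ _ h hA hn
    have hfin : Finite M := h.1
    rcases subsingleton_or_nontrivial M with h0 | h0
    · exact fcl_zero h
    have hfinR : Finite (ResF f M) := Finite.of_equiv M (ResF.of f M).toEquiv
    have hnt : Nontrivial (ResF f M) := (ResF.of f M).toEquiv.symm.nontrivial
    obtain ⟨p, d, hp, hpM, hd, hne⟩ := exists_sub x (ResF f M)
    have hpM' : p ∣ Nat.card M := by
      rwa [Nat.card_congr (ResF.of f M).toEquiv]
    have hpn : ¬ p ∣ Nat.card N := fun h1 =>
      hp.one_lt.ne' (Nat.dvd_one.1 (h.2 ▸ Nat.dvd_gcd hpM' h1))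
    obtain ⟨V, hV⟩ := exists_sub_dih D p d hd M
    obtain ⟨hA1, hA2⟩ := sub_aut_dih D p d hd M V hV hA
    have hS : FCop N V := h.inj V.subtype.toAddMonoidHom Subtype.val_injective
    have hQ : FCop N (M ⧸ V) := h.surj V.mkQ.toAddMonoidHom (Submodule.mkQ_surjective _)
    have hfinS : Finite V := hS.1
    have hfinQ : Finite (M ⧸ V) := hQ.1
    have hVne : V ≠ ⊥ := by
      obtain ⟨y, hy, hy0⟩ := Submodule.exists_mem_ne_zero_of_ne_bot hne
      obtain ⟨y, rfl⟩ := (ResF.of f M).surjective y
      have hyV : y ∈ V := by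
        rw [hV, ← io_aeval]
        exact hy
      rw [Submodule.ne_bot_iff]
      exact ⟨y, hyV, fun h1 => hy0 (by rw [h1, map_zero])⟩
    have hVp : ∀ y : V, p • y = 0 := fun y => Subtype.ext ((hV y.1).1 y.2).1
    have hVd : ∀ y : V, aeval (el (f x)) (cyclotomic d ℤ) • y = 0 := fun y =>
      Subtype.ext ((hV y.1).1 y.2).2
    have h1 : fcl N V hS = 0 := by
      have hd0 : 0 < d := Nat.pos_of_dvd_of_pos hd Nat.card_pos
      rcases (by omega : d = 1 ∨ d = 2 ∨ 3 ≤ d) with rfl | rfl | h3
      · refine fcl_one D p hp hpn V hS hVp fun y => ?_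
        have h2 := hVd y
        rw [cyclotomic_one, map_sub, aeval_X, map_one] at h2
        have h4 : el (f x) • y - (1 : MonoidAlgebra ℤ N) • y = 0 :=
          (sub_smul (el (f x)) (1 : MonoidAlgebra ℤ N) y).symm.trans h2
        rw [one_smul] at h4
        exact sub_eq_zero.1 h4
      · refine fcl_neg D p hp hpn V hS hVp fun y => ?_
        have h2 := hVd y
        rw [cyclotomic_two, map_add, aeval_X, map_one, add_smul, one_smul] at h2
        exact eq_neg_of_add_eq_zero_left h2
      · obtain ⟨k, ⟨e⟩⟩ := exists_free_dih D p hp hpn d hd h3 V hVp hVd hA1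
        have hD : FCop N (PM f x s p (cyclotomic d ℤ)) := PM.fcop f x s p hp hpn _
        rw [fcl_equiv hS (hD.pi k) e, fcl_pi hD k (hD.pi k)]
        have h2 : fcl N (PM f x s p (cyclotomic d ℤ)) hD = 0 := pcl_cyclotomic D p hp hpn d hd h3
        rw [h2, smul_zero]
    have hlt : Nat.card (M ⧸ V) < n := by
      have h3 : Nat.card M = Nat.card V * Nat.card (M ⧸ V) :=
        Submodule.card_eq_card_quotient_mul_card V
      have h4 : 1 < Nat.card V := by
        have : Nontrivial V := (Submodule.nontrivial_iff_ne_bot).2 hVne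
        exact Finite.one_lt_card
      rw [← hn, h3]
      exact lt_mul_left Nat.card_pos h4
    rw [fcl_exact hS h hQ V.subtype V.mkQ Subtype.val_injective
      (LinearMap.exact_subtype_mkQ _) (Submodule.mkQ_surjective _), h1,
      ih _ hlt (M ⧸ V) hQ hA2 rfl, add_zero]

end Pool.Agent.Lib.MP_0e6cae_nt.DH
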