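import Pool.Agent.Lib.MP_0e6cae_nt.KF.ResB
import Pool.Agent.Lib.MP_0e6cae_nt.DH.Van

/-!
The restriction to a subgroup `C` for which the finite modules of order prime to `|C|`, restricted
from the whole group, have class zero.
-/

open CategoryTheory

namespace Pool.Agent.Lib.MP_0e6cae_nt.DH

open SW KF

theorem mk_pi {R : Type} [Ring R] (t : ℕ) : K0.mk (FPMod.ofProj R (Fin t → R)) =
    t • K0.mk (FPMod.ofProj R R) := by
  induction t with
  | zero =>
    rw [zero_smul, ← k0z_mk]
    exact K0.mk_equiv (M := FPMod.ofProj R (Fin 0 → R)) (M' := k0z R)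
      (LinearEquiv.ofBijective (0 : (Fin 0 → R) →ₗ[R] (k0z R).carrier)
        ⟨fun x y _ => Subsingleton.elim x y, fun x => ⟨0, k0z_sub _ _⟩⟩)
  | succ t ih =>
    have h1 := K0.mk_equiv (M := FPMod.ofProj R (R × (Fin t → R)))
      (M' := FPMod.ofProj R (Fin (t + 1) → R)) (Fin.consLinearEquiv R (fun _ => R))
    have h2 := mk_exact' (A := R) (B := R × (Fin t → R)) (D := Fin t → R)
      (FPMod.ofProj R R).fg (FPMod.ofProj R R).fpd (FPMod.ofProj R (R × (Fin t → R))).fg
      (FPMod.ofProj R (R × (Fin t → R))).fpd (FPMod.ofProj R (Fin t → R)).fg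
      (FPMod.ofProj R (Fin t → R)).fpd (LinearMap.inl R R (Fin t → R))
      (LinearMap.snd R R (Fin t → R)) LinearMap.inl_injective Function.Exact.inl_snd
      LinearMap.snd_surjective
    have h3 : K0.mk (FPMod.ofProj R (R × (Fin t → R))) =
        K0.mk (FPMod.ofProj R R) + K0.mk (FPMod.ofProj R (Fin t → R)) := h2
    rw [← h1, h3, ih, succ_nsmul, add_comm]

theorem mk_free' {R : Type} [Ring R] (t : ℕ) (A : FPMod R)
    (e : A.carrier ≃ₗ[R] (Fin t → R)) : K0.mk A = t • K0.mk (FPMod.ofProj R R) := by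
  rw [← mk_pi]
  exact K0.mk_equiv (M := A) (M' := FPMod.ofProj R (Fin t → R)) e

/-- Every finite module of order prime to `|C|` which is the restriction of a `ℤ[G]`-module has
class zero. -/
def Van {C G : Type} [Group C] [Finite C] [Group G] (f : C →* G) : Prop :=
  ∀ (M : Type) [AddCommGroup M] [Module (MonoidAlgebra ℤ G) M] (h : FCop C (ResF f M)),
    fcl C (ResF f M) h = 0

theorem res_projective' {C G : Type} [Group C] [Finite C] [Group G] [Finite G] (f : C →* G)
    (hf : Function.Injective f) (hV : Van f)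
    (P : FPMod (MonoidAlgebra ℤ G)) (hP : Module.Projective (MonoidAlgebra ℤ G) P.carrier) :
    ∃ t : ℕ, t * Nat.card C = Module.finrank ℤ P.carrier ∧ K0.mk (fres f hf P) =
      t • K0.mk (FPMod.ofProj (MonoidAlgebra ℤ C) (MonoidAlgebra ℤ C)) := by
  have hPf : Module.Finite (MonoidAlgebra ℤ G) P.carrier := P.fg
  have hPZ : Module.Finite ℤ P.carrier := Module.Finite.trans (MonoidAlgebra ℤ G) P.carrier
  obtain ⟨r, φ, n, hr, hφ, hn0, hnc, hφ2⟩ := swan (G := G) P.carrier (Nat.card C) Nat.card_pos.ne'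
  obtain ⟨t, ht, ⟨e⟩⟩ := ResF.free f hf r
  refine ⟨t, ht.trans hr, ?_⟩
  have hMZ : Module.Finite ℤ (P.carrier ⧸ LinearMap.range φ) := by
    have h0 : Function.Surjective (LinearMap.range φ).mkQ.toAddMonoidHom.toIntLinearMap :=
      Submodule.mkQ_surjective _
    exact Module.Finite.of_surjective _ h0
  have hkill : ∀ y : P.carrier ⧸ LinearMap.range φ, n • y = 0 := by
    intro y
    obtain ⟨z, rfl⟩ := Submodule.mkQ_surjective _ y
    rw [← map_nsmul, Submodule.mkQ_apply, Submodule.Quotient.mk_eq_zero]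
    obtain ⟨v, hv⟩ := hφ2 z
    exact ⟨v, hv⟩
  have hM : FCop C (ResF f (P.carrier ⧸ LinearMap.range φ)) :=
    finite_of_kill (P.carrier ⧸ LinearMap.range φ) n (Nat.card C) hn0 hnc hkill
  have hMfin := hM.1
  have h0 := hV (P.carrier ⧸ LinearMap.range φ) hM
  have h5 : Function.Injective (ResF.map f φ) := hφ
  have h6 : Function.Exact (ResF.map f φ) (ResF.map f (LinearMap.range φ).mkQ) :=
    fun y => LinearMap.exact_map_mkQ_range φ y
  have h7 : Function.Surjective (ResF.map f (LinearMap.range φ).mkQ) :=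
    Submodule.mkQ_surjective (LinearMap.range φ)
  have hF := (fres f hf (FPMod.ofProj (MonoidAlgebra ℤ G) (Fin r → MonoidAlgebra ℤ G))).fg
  have hF' := (fres f hf (FPMod.ofProj (MonoidAlgebra ℤ G) (Fin r → MonoidAlgebra ℤ G))).fpd
  have h1 := mk_exact' (R := MonoidAlgebra ℤ C) (A := ResF f (Fin r → MonoidAlgebra ℤ G))
    (B := ResF f P.carrier) (D := ResF f (P.carrier ⧸ LinearMap.range φ)) hF hF'
    (fres f hf P).fg (fres f hf P).fpd Module.Finite.of_finite
    (fpd_of_coprime (ResF f (P.carrier ⧸ LinearMap.range φ)) hM.2)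
    (ResF.map f φ) (ResF.map f (LinearMap.range φ).mkQ) h5 h6 h7
  have h2 := mk_free' t ⟨ResF f (Fin r → MonoidAlgebra ℤ G), hF, hF'⟩ e
  have h3 : K0.mk (⟨ResF f (P.carrier ⧸ LinearMap.range φ), Module.Finite.of_finite,
    fpd_of_coprime (ResF f (P.carrier ⧸ LinearMap.range φ)) hM.2⟩ : FPMod (MonoidAlgebra ℤ C)) =
      0 := h0
  rw [h3, add_zero, h2] at h1
  exact h1

theorem res_all' {C G : Type} [Group C] [Finite C] [Group G] [Finite G] (f : C →* G)
    (hf : Function.Injective f) (hV : Van f) (A : FPMod (MonoidAlgebra ℤ G)) :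
    ∃ t : ℤ, t * Nat.card C = Module.finrank ℤ A.carrier ∧ K0.mk (fres f hf A) =
      t • K0.mk (FPMod.ofProj (MonoidAlgebra ℤ C) (MonoidAlgebra ℤ C)) := by
  have hAf : Module.Finite (MonoidAlgebra ℤ G) A.carrier := A.fg
  obtain ⟨k, q, hq⟩ := Module.Finite.exists_fin' (MonoidAlgebra ℤ G) A.carrier
  have hFZ : Module.Finite ℤ (Fin k → MonoidAlgebra ℤ G) := Module.Finite.trans (MonoidAlgebra ℤ G) _
  have hL : Module.Finite (MonoidAlgebra ℤ G) (LinearMap.ker q) := by
    have : Module.Finite ℤ (LinearMap.ker q) := by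
      have h1 : Module.Finite ℤ (LinearMap.ker q.toAddMonoidHom.toIntLinearMap) := inferInstance
      exact h1
    exact Module.Finite.of_restrictScalars_finite ℤ _ _
  have hLfpd := fpd_left (LinearMap.ker q).subtype q Subtype.val_injective
    (LinearMap.exact_subtype_ker_map q) hq A.fpd
  obtain ⟨n, hn⟩ := hLfpd
  have hLp : Module.Projective (MonoidAlgebra ℤ G) (LinearMap.ker q) :=
    projective_of_lattice (LinearMap.ker q)
      (fun m y hm hy => by
        have h1 : m • (y : Fin k → MonoidAlgebra ℤ G) = 0 := congrArg Subtype.val hy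
        refine Subtype.ext ?_
        funext i
        have h2 : m • (y : Fin k → MonoidAlgebra ℤ G) i = 0 := congrFun h1 i
        ext a
        let ψ : MonoidAlgebra ℤ G →+ ℤ :=
          { toFun := fun y => y.coeff a
            map_zero' := by simp
            map_add' := fun y z => by simp }
        have h3 : m * ((y : Fin k → MonoidAlgebra ℤ G) i).coeff a = 0 := by
          have h4 := map_zsmul ψ m ((y : Fin k → MonoidAlgebra ℤ G) i)
          rw [h2, map_zero, smul_eq_mul] at h4
          exact h4.symm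
        exact (mul_eq_zero.1 h3).resolve_left hm) n hn
  obtain ⟨t₁, ht₁, h₁⟩ := res_projective' f hf hV
    (FPMod.ofProj (MonoidAlgebra ℤ G) (Fin k → MonoidAlgebra ℤ G))
    (inferInstanceAs (Module.Projective (MonoidAlgebra ℤ G) (Fin k → MonoidAlgebra ℤ G)))
  obtain ⟨t₂, ht₂, h₂⟩ := res_projective' f hf hV
    (FPMod.ofProj (MonoidAlgebra ℤ G) (LinearMap.ker q)) hLp
  have hex := fres_exact f hf (A' := FPMod.ofProj (MonoidAlgebra ℤ G) (LinearMap.ker q))
    (A := FPMod.ofProj (MonoidAlgebra ℤ G) (Fin k → MonoidAlgebra ℤ G)) (A'' := A)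
    (LinearMap.ker q).subtype q Subtype.val_injective (LinearMap.exact_subtype_ker_map q) hq
  have hrk := finrank_exact (LinearMap.ker q).subtype.toAddMonoidHom q.toAddMonoidHom
    Subtype.val_injective (LinearMap.exact_subtype_ker_map q) hq
  have ht₁' : t₁ * Nat.card C = Module.finrank ℤ (Fin k → MonoidAlgebra ℤ G) := ht₁
  have ht₂' : t₂ * Nat.card C = Module.finrank ℤ (LinearMap.ker q) := ht₂
  refine ⟨(t₁ : ℤ) - t₂, ?_, ?_⟩
  · have h3 : (t₁ * Nat.card C : ℕ) = t₂ * Nat.card C + Module.finrank ℤ A.carrier := by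
      rw [ht₁', ht₂', hrk]
    have h4 : ((t₁ : ℤ) * Nat.card C) = t₂ * Nat.card C + Module.finrank ℤ A.carrier := by
      exact_mod_cast h3
    rw [sub_mul]
    linarith
  · rw [h₁, h₂] at hex
    rw [sub_smul, natCast_zsmul, natCast_zsmul, hex, add_sub_cancel_left]

theorem res_eq' {C G : Type} [Group C] [Finite C] [Group G] [Finite G] (f : C →* G)
    (hf : Function.Injective f) (hV : Van f) (A B : FPMod (MonoidAlgebra ℤ G))
    (hAB : Module.finrank ℤ A.carrier = Module.finrank ℤ B.carrier) :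
    K0.mk (fres f hf A) = K0.mk (fres f hf B) := by
  obtain ⟨t, ht, h1⟩ := res_all' f hf hV A
  obtain ⟨t', ht', h2⟩ := res_all' f hf hV B
  have h3 : t = t' := by
    have hpos : (0 : ℤ) < Nat.card C := by exact_mod_cast Nat.card_pos
    have h4 : t * Nat.card C = t' * Nat.card C := by rw [ht, ht', hAB]
    exact mul_right_cancel₀ hpos.ne' h4
  rw [h3] at h1
  exact h1.trans h2.symm

/-- The restriction of `ℤ[G]`-modules to a cyclic group whose generator is conjugate to its
powers. -/
theorem van_cyc {C G : Type} [CommGroup C] [Finite C] [Group G] [Finite G] (f : C →* G) (x : C)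
    (hx : ∀ y : C, y ∈ Subgroup.zpowers x)
    (hconj : ∀ a : ℕ, a.Coprime (Nat.card C) → ∃ γ : G, γ * f x * γ⁻¹ = f x ^ a) : Van f :=
  fun M _ _ h => fcl_eq_zero x hx (ResF f M) h (aut_res f x hconj M)

/-- The restriction of `ℤ[G]`-modules to a dihedral group whose rotations are conjugate to their
powers. -/
theorem van_dih {C N G : Type} [CommGroup C] [Finite C] [Group N] [Finite N] [Group G] [Finite G]
    (k : C →* N) (x : C) (s : N) (D : Dih k x s) (f : N →* G)
    (hconj : ∀ a : ℕ, a.Coprime (Nat.card C) → ∃ γ : G, γ * f (k x) * γ⁻¹ = f (k x) ^ a) :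
    Van f := fun M _ _ h => by
  refine fcl_eq_zero_dih D (ResF f M) h ?_
  intro a ha
  obtain ⟨F, hF⟩ := aut_res (f.comp k) x hconj M a ha
  have h1 : ∀ (r : MonoidAlgebra ℤ C) (y : M), r • ResF.of (f.comp k) M y =
      r • ResF.of k (ResF f M) (ResF.of f M y) := by
    intro r y
    rw [ResF.smul_of, ResF.smul_of, ResF.smul_of]
    have h2 : MonoidAlgebra.mapDomainRingHom ℤ (f.comp k) r =
        MonoidAlgebra.mapDomainRingHom ℤ f (MonoidAlgebra.mapDomainRingHom ℤ k r) := by
      induction r using MonoidAlgebra.induction_linear with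
      | zero => simp
      | add a b ha hb => rw [map_add, map_add, map_add, ha, hb]
      | single a n => simp
    rw [h2]
    rfl
  refine ⟨F, fun y => ?_⟩
  have h3 := hF y
  have h4 := h1 (MonoidAlgebra.single x (1 : ℤ)) y
  have h5 := h1 ((MonoidAlgebra.single x (1 : ℤ) : MonoidAlgebra ℤ C) ^ a) (F y)
  exact (congrArg F h4.symm).trans (h3.trans h5)

end Pool.Agent.Lib.MP_0e6cae_nt.DH
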