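import Pool.Agent.Lib.MP_0e6cae_nt.DH.Pal
import Pool.Agent.Lib.MP_0e6cae_nt.KF.Sub

/-!
The submodule of the elements killed by `p` and `Φ_d(x)`.
-/

open CategoryTheory Polynomial

namespace Pool.Agent.Lib.MP_0e6cae_nt.DH

open KF SW

variable {C N : Type} [CommGroup C] [Group N] {f : C →* N} {x : C} {s : N}

/-- (`Φ_d(x) c = c Φ_d(x)` for `c ∈ C`, `Φ_d(x) s y = s Φ_d(x⁻¹) y`, and `Φ_d(x⁻¹)` is a multiple
of `Φ_d(x)` (`pal_cyclotomic`).) -/
theorem exists_sub_dih [Finite C] [Finite N] (D : Dih f x s) (p d : ℕ) (hd : d ∣ Nat.card C)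
    (M : Type) [AddCommGroup M] [Module (MonoidAlgebra ℤ N) M] :
    ∃ V : Submodule (MonoidAlgebra ℤ N) M, ∀ y : M,
      y ∈ V ↔ p • y = 0 ∧ aeval (el (f x)) (cyclotomic d ℤ) • y = 0 := by
  set Φ : ℤ[X] := cyclotomic d ℤ with hΦ
  have hss : el s * el s = (1 : MonoidAlgebra ℤ N) := by rw [el_mul, D.sq, el_one]
  have hio : ∀ (a : MonoidAlgebra ℤ C) (y : M), aeval (el (f x)) Φ • y = 0 →
      aeval (el (f x)) Φ • (io f a • y) = 0 := by
    intro a y hy
    rw [← io_aeval, ← mul_smul, ← map_mul, mul_comm, map_mul, mul_smul, io_aeval, hy, smul_zero]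
  have hs : ∀ y : M, aeval (el (f x)) Φ • y = 0 → aeval (el (f x)) Φ • (el s • y) = 0 := by
    intro y hy
    obtain ⟨c, hc⟩ := Ideal.mem_span_singleton'.1 (pal_cyclotomic x d hd)
    have h1 : aeval (el (f x⁻¹)) Φ • y = 0 := by
      rw [← io_aeval, ← hc, map_mul, mul_smul, io_aeval, hy, smul_zero]
    have h2 : aeval (el (f x)) Φ * el s = el s * aeval (el (f x⁻¹)) Φ := by
      have h3 := D.s_mul_io Φ
      have h4 : el s * (el s * aeval (el (f x)) Φ) * el s =
          el s * (aeval (el (f x⁻¹)) Φ * el s) * el s := by rw [h3]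
      rw [← mul_assoc, hss, one_mul] at h4
      rw [h4, mul_assoc, mul_assoc, hss, mul_one]
    rw [← mul_smul, h2, mul_smul, h1, smul_zero]
  refine ⟨{ carrier := {y | p • y = 0 ∧ aeval (el (f x)) Φ • y = 0}
            add_mem' := ?_
            zero_mem' := ⟨smul_zero _, smul_zero _⟩
            smul_mem' := ?_ }, fun y => Iff.rfl⟩
  · rintro a b ⟨h1, h2⟩ ⟨h3, h4⟩
    exact ⟨by rw [smul_add, h1, h3, add_zero], by rw [smul_add, h2, h4, add_zero]⟩
  · rintro r y ⟨h1, h2⟩
    refine ⟨by rw [smul_comm, h1, smul_zero], ?_⟩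
    obtain ⟨a, b, rfl⟩ := D.exists_pair r
    rw [add_smul, mul_smul, smul_add, hio a y h2, hio b _ (hs y h2), add_zero]

/-- (`KF.sub_aut` for `ResF f M`; `V` and `KF.sub x p d (ResF f M)` have the same elements.) -/
theorem sub_aut_dih [Finite C] [Finite N] (D : Dih f x s) (p d : ℕ) (hd : d ∣ Nat.card C)
    (M : Type) [AddCommGroup M] [Module (MonoidAlgebra ℤ N) M] [Finite M]
    (V : Submodule (MonoidAlgebra ℤ N) M) (hV : ∀ y : M,
      y ∈ V ↔ p • y = 0 ∧ aeval (el (f x)) (cyclotomic d ℤ) • y = 0)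
    (hA : Aut x (ResF f M)) : Aut x (ResF f V) ∧ Aut x (ResF f (M ⧸ V)) := by
  have hsub : ∀ y : M, y ∈ V ↔ ResF.of f M y ∈ sub x p d (ResF f M) := by
    intro y
    rw [hV]
    change _ ↔ p • ResF.of f M y = 0 ∧ aeval (el x) (cyclotomic d ℤ) • ResF.of f M y = 0
    rw [ResF.smul_of, ← map_nsmul, ← io_aeval f x]
    exact Iff.rfl
  -- an automorphism of the restriction gives an additive automorphism of `M`
  have key : ∀ a : ℕ, a.Coprime (Nat.card C) → ∃ h : M ≃+ M, (∀ y : M,
      h (el (f x) • y) = el (f (x ^ a)) • h y) ∧ ∀ y ∈ V, h y ∈ V := by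
    intro a ha
    obtain ⟨h, hh⟩ := hA a ha
    refine ⟨((ResF.of f M).trans h).trans (ResF.of f M).symm, fun y => ?_, fun y hy => ?_⟩
    · have h1 := hh (ResF.of f M y)
      rw [ResF.single_smul, MonoidAlgebra.single_pow, one_pow] at h1
      simp only [AddEquiv.trans_apply]
      rw [h1]
      exact ResF.single_smul f M (x ^ a) 1 ((ResF.of f M).symm (h (ResF.of f M y)))
    · exact (hsub _).2 (sub_map x D.gen p d hd (ResF f M) a ha h hh (ResF.of f M y)
        ((hsub y).1 hy))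
  constructor
  · intro a ha
    obtain ⟨h, hh, hm⟩ := key a ha
    let g : V →+ V :=
      { toFun := fun y => ⟨h y.1, hm y.1 y.2⟩
        map_zero' := Subtype.ext (map_zero h)
        map_add' := fun y z => Subtype.ext (map_add h y.1 z.1) }
    have hg : Function.Injective g := fun y z hyz =>
      Subtype.ext (h.injective (congrArg Subtype.val hyz))
    let e : V ≃+ V := AddEquiv.ofBijective g ⟨hg, Finite.surjective_of_injective hg⟩
    refine ⟨((ResF.of f V).symm.trans e).trans (ResF.of f V), fun y => ?_⟩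
    obtain ⟨y, rfl⟩ := (ResF.of f V).surjective y
    rw [ResF.single_smul, MonoidAlgebra.single_pow, one_pow]
    simp only [AddEquiv.trans_apply, AddEquiv.symm_apply_apply]
    rw [ResF.single_smul]
    congr 1
    exact Subtype.ext (hh y.1)
  · intro a ha
    obtain ⟨h, hh, hm⟩ := key a ha
    let g : (M ⧸ V) →+ (M ⧸ V) :=
      QuotientAddGroup.lift V.toAddSubgroup
        (V.mkQ.toAddMonoidHom.comp h.toAddMonoidHom) (by
          intro y hy
          exact (Submodule.Quotient.mk_eq_zero _).2 (hm y hy))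
    have hgm : ∀ y : M, g (Submodule.Quotient.mk y) = Submodule.Quotient.mk (h y) := fun y => rfl
    have hg : Function.Surjective g := by
      intro q
      obtain ⟨y, rfl⟩ := Submodule.Quotient.mk_surjective _ q
      exact ⟨Submodule.Quotient.mk (h.symm y), by rw [hgm, AddEquiv.apply_symm_apply]⟩
    have hfinQ : Finite (M ⧸ V) :=
      Finite.of_surjective _ (Submodule.Quotient.mk_surjective V)
    let e : (M ⧸ V) ≃+ (M ⧸ V) :=
      AddEquiv.ofBijective g ⟨Finite.injective_iff_surjective.2 hg, hg⟩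
    refine ⟨((ResF.of f (M ⧸ V)).symm.trans e).trans (ResF.of f (M ⧸ V)), fun q => ?_⟩
    obtain ⟨q, rfl⟩ := (ResF.of f (M ⧸ V)).surjective q
    obtain ⟨y, rfl⟩ := Submodule.Quotient.mk_surjective _ q
    rw [ResF.single_smul, MonoidAlgebra.single_pow, one_pow]
    simp only [AddEquiv.trans_apply, AddEquiv.symm_apply_apply]
    rw [ResF.single_smul]
    congr 1
    change g (el (f x) • Submodule.Quotient.mk y) = el (f (x ^ a)) • g (Submodule.Quotient.mk y)
    rw [← Submodule.Quotient.mk_smul, hgm, hgm, hh, Submodule.Quotient.mk_smul]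

end Pool.Agent.Lib.MP_0e6cae_nt.DH
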